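import Pool.Agent.Helper19_LogPot.Defs

/-!
The transfinite diameter of any set between the circle and the closed disc of radius `R` is `R`.
-/

open Filter Topology Matrix
open scoped ComplexOrder

namespace Pool.Agent.Helper19_LogPot

/-- The product of all mutual distances of `n` points of the plane. -/
noncomputable def distProd {n : ℕ} (z : Fin n → ℂ) : ℝ := ∏ i, ∏ j ∈ Finset.Ioi i, ‖z i - z j‖

lemma distProd_nonneg {n : ℕ} (z : Fin n → ℂ) : 0 ≤ distProd z :=
  Finset.prod_nonneg fun _ _ => Finset.prod_nonneg fun _ _ => norm_nonneg _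

lemma distProd_eq {n : ℕ} (z : Fin n → ℂ) : distProd z = ‖(vandermonde z).det‖ := by
  rw [det_vandermonde, distProd, norm_prod]
  refine Finset.prod_congr rfl fun i _ => ?_
  rw [norm_prod]
  exact Finset.prod_congr rfl fun j _ => norm_sub_rev _ _

/-- number of pairs -/
noncomputable def pairs (n : ℕ) : ℕ := ∑ i : Fin n, (Finset.Ioi i).card

lemma pairs_eq (n : ℕ) : (pairs n : ℝ) = n * (n - 1) / 2 := by
  have h : pairs n = ∑ i ∈ Finset.range n, i := by
    unfold pairs
    simp only [Fin.card_Ioi]
    rw [Finset.sum_fin_eq_sum_range, ← Finset.sum_range_reflect]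
    refine Finset.sum_congr rfl fun i hi => ?_
    have := Finset.mem_range.mp hi
    simp only [dif_pos (by omega : n - 1 - i < n)]
    omega
  rw [h]
  have h2 := Finset.sum_range_id_mul_two n
  have h3 : ((∑ i ∈ Finset.range n, i : ℕ) : ℝ) * 2 = n * ((n - 1 : ℕ) : ℝ) := by
    exact_mod_cast h2
  rcases Nat.eq_zero_or_pos n with rfl | hn
  · simp
  · rw [Nat.cast_sub hn] at h3
    push_cast at h3 ⊢
    linarith

lemma distProd_smul {n : ℕ} (R : ℝ) (hR : 0 ≤ R) (w : Fin n → ℂ) :
    distProd (fun i => (R : ℂ) * w i) = R ^ pairs n * distProd w := by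
  unfold distProd pairs
  rw [← Finset.prod_pow_eq_pow_sum, ← Finset.prod_mul_distrib]
  refine Finset.prod_congr rfl fun i _ => ?_
  rw [← Finset.prod_const, ← Finset.prod_mul_distrib]
  refine Finset.prod_congr rfl fun j _ => ?_
  rw [← mul_sub, norm_mul, Complex.norm_real, Real.norm_of_nonneg hR]

lemma distProd_sq {n : ℕ} (w : Fin n → ℂ) :
    ((distProd w ^ 2 : ℝ) : ℂ) = (vandermonde w * (vandermonde w)ᴴ).det := by
  rw [distProd_eq, det_mul, det_conjTranspose]
  rw [Complex.ofReal_pow]
  exact (Complex.mul_conj' _).symm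

lemma distProd_le {n : ℕ} (hn : 0 < n) (w : Fin n → ℂ) (hw : ∀ i, ‖w i‖ ≤ 1) :
    distProd w ^ 2 ≤ (n : ℝ) ^ n := by
  set M := vandermonde w * (vandermonde w)ᴴ with hM
  have hpsd : M.PosSemidef := posSemidef_self_mul_conjTranspose _
  have hdet : distProd w ^ 2 = ∏ i, hpsd.isHermitian.eigenvalues i := by
    have h1 := distProd_sq w
    rw [← hM, hpsd.isHermitian.det_eq_prod_eigenvalues] at h1
    apply Complex.ofReal_injective
    rw [h1, Complex.ofReal_prod]
    rfl
  have htr : ∑ i, hpsd.isHermitian.eigenvalues i ≤ (n : ℝ) * n := by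
    have h1 : ((∑ i, hpsd.isHermitian.eigenvalues i : ℝ) : ℂ) = M.trace := by
      rw [hpsd.isHermitian.trace_eq_sum_eigenvalues]
      push_cast
      rfl
    have h2 : M.trace = ((∑ i : Fin n, ∑ j : Fin n, ‖w i ^ (j : ℕ)‖ ^ 2 : ℝ) : ℂ) := by
      rw [trace]
      push_cast
      refine Finset.sum_congr rfl fun i _ => ?_
      rw [diag_apply, hM, mul_apply]
      refine Finset.sum_congr rfl fun j _ => ?_
      rw [conjTranspose_apply, vandermonde_apply]
      exact Complex.mul_conj' _
    rw [h2] at h1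
    have h3 : ∑ i, hpsd.isHermitian.eigenvalues i
        = ∑ i : Fin n, ∑ j : Fin n, ‖w i ^ (j : ℕ)‖ ^ 2 := by exact_mod_cast h1
    rw [h3]
    calc ∑ i : Fin n, ∑ j : Fin n, ‖w i ^ (j : ℕ)‖ ^ 2 ≤ ∑ i : Fin n, ∑ j : Fin n, (1 : ℝ) := by
          refine Finset.sum_le_sum fun i _ => Finset.sum_le_sum fun j _ => ?_
          rw [norm_pow]
          exact pow_le_one₀ (by positivity) (pow_le_one₀ (norm_nonneg _) (hw i))
      _ = (n : ℝ) * n := by simp
  have hnn : ∀ i, 0 ≤ hpsd.isHermitian.eigenvalues i := hpsd.eigenvalues_nonneg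
  have hn' : (0 : ℝ) < n := Nat.cast_pos.mpr hn
  have amgm := Real.geom_mean_le_arith_mean_weighted Finset.univ (fun _ : Fin n => (1 : ℝ) / n)
    hpsd.isHermitian.eigenvalues (fun _ _ => by positivity) (by simp [hn'.ne'])
    (fun i _ => hnn i)
  rw [← Finset.mul_sum] at amgm
  have h4 : ∏ i, hpsd.isHermitian.eigenvalues i ^ ((1 : ℝ) / n) ≤ n := by
    refine amgm.trans ?_
    calc 1 / (n : ℝ) * ∑ i, hpsd.isHermitian.eigenvalues i ≤ 1 / (n : ℝ) * (n * n) :=
          mul_le_mul_of_nonneg_left htr (by positivity)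
      _ = n := by field_simp
  rw [hdet]
  calc ∏ i, hpsd.isHermitian.eigenvalues i
      = (∏ i, hpsd.isHermitian.eigenvalues i ^ ((1 : ℝ) / n)) ^ n := by
        rw [← Finset.prod_pow]
        refine Finset.prod_congr rfl fun i _ => ?_
        rw [← Real.rpow_natCast, ← Real.rpow_mul (hnn i)]
        rw [one_div, inv_mul_cancel₀ hn'.ne', Real.rpow_one]
    _ ≤ (n : ℝ) ^ n := by
        refine pow_le_pow_left₀ ?_ h4 n
        exact Finset.prod_nonneg fun i _ => Real.rpow_nonneg (hnn i) _

/-- the `n`-th roots of unity -/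
noncomputable def root (n : ℕ) (i : Fin n) : ℂ := Complex.exp (2 * Real.pi * Complex.I / n) ^ (i : ℕ)

lemma norm_root {n : ℕ} (i : Fin n) : ‖root n i‖ = 1 := by
  rw [root, norm_pow]
  have : (2 * Real.pi * Complex.I / n : ℂ) = ((2 * Real.pi / n : ℝ) : ℂ) * Complex.I := by
    push_cast; ring
  rw [this, Complex.norm_exp_ofReal_mul_I, one_pow]

lemma distProd_root {n : ℕ} (hn : 1 < n) : distProd (root n) ^ 2 = (n : ℝ) ^ n := by
  have hn0 : n ≠ 0 := by omega
  have hprim := Complex.isPrimitiveRoot_exp n hn0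
  set ζ := Complex.exp (2 * Real.pi * Complex.I / n) with hζ
  have hζn : ζ ^ n = 1 := hprim.pow_eq_one
  have hM : vandermonde (root n) * (vandermonde (root n))ᴴ = (n : ℂ) • (1 : Matrix (Fin n) (Fin n) ℂ) := by
    ext i j
    rw [mul_apply, Matrix.smul_apply, smul_eq_mul]
    have hterm : ∀ k : Fin n, vandermonde (root n) i k * (vandermonde (root n))ᴴ k j
        = (root n i * star (root n j)) ^ (k : ℕ) := by
      intro k
      rw [conjTranspose_apply, vandermonde_apply, vandermonde_apply, star_pow, mul_pow]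
    simp_rw [hterm]
    have hconj : ∀ j : Fin n, root n j * star (root n j) = 1 := by
      intro j
      have := Complex.mul_conj' (root n j)
      rw [norm_root] at this
      simpa using this
    by_cases hij : i = j
    · subst hij
      rw [hconj]
      simp
    · rw [one_apply_ne hij, mul_zero]
      set η := root n i * star (root n j) with hη
      have hη1 : η ≠ 1 := by
        intro h
        have h2 : root n i = root n j := by
          calc root n i = root n i * (root n j * star (root n j)) := by rw [hconj, mul_one]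
            _ = η * root n j := by rw [hη]; ring
            _ = root n j := by rw [h, one_mul]
        have h3 : (i : ℕ) = j := hprim.pow_inj i.2 j.2 h2
        exact hij (Fin.ext h3)
      have hηn : η ^ n = 1 := by
        rw [hη, mul_pow, root, root, star_pow, ← pow_mul, ← pow_mul, mul_comm (i : ℕ), mul_comm (j : ℕ),
          pow_mul, pow_mul, ← hζ, ← star_pow, hζn]
        simp
      rw [Fin.sum_univ_eq_sum_range (fun k => η ^ k)]
      have := geom_sum_mul η n
      rw [hηn, sub_self] at this
      exact (mul_eq_zero.mp this).resolve_right (sub_ne_zero.mpr hη1)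
  have h1 := distProd_sq (root n)
  rw [hM, det_smul, det_one, mul_one, Fintype.card_fin] at h1
  exact_mod_cast h1

lemma feketeDiam_eq {R : ℝ} (hR : 0 < R) {E : Set ℂ} (h1 : Metric.sphere 0 R ⊆ E)
    (h2 : E ⊆ Metric.closedBall 0 R) {n : ℕ} (hn : 1 < n) :
    feketeDiam E n = R * (n : ℝ) ^ ((1 : ℝ) / (n - 1)) := by
  have hn' : (1 : ℝ) < n := by exact_mod_cast hn
  have hn0 : (0 : ℝ) < n := by linarith
  have hval : distProd (fun i => (R : ℂ) * root n i) = R ^ pairs n * Real.sqrt ((n : ℝ) ^ n) := by
    rw [distProd_smul R hR.le, ← distProd_root hn, Real.sqrt_sq (distProd_nonneg _)]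
  have hsup : sSup {P : ℝ | ∃ z : Fin n → ℂ, (∀ i, z i ∈ E) ∧
      P = ∏ i, ∏ j ∈ Finset.Ioi i, ‖z i - z j‖} = R ^ pairs n * Real.sqrt ((n : ℝ) ^ n) := by
    apply le_antisymm
    · apply csSup_le
      · exact ⟨_, fun i => (R : ℂ) * root n i, fun i => h1 (by
          rw [mem_sphere_zero_iff_norm, norm_mul, norm_root, mul_one, Complex.norm_real,
            Real.norm_of_nonneg hR.le]), rfl⟩
      · rintro P ⟨z, hz, rfl⟩
        have hz' : z = fun i => (R : ℂ) * (z i / R) := by
          ext i
          rw [mul_div_cancel₀]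
          exact_mod_cast hR.ne'
        have hle := distProd_le (by omega : 0 < n) (fun i => z i / (R : ℂ)) (fun i => by
          rw [norm_div, Complex.norm_real, Real.norm_of_nonneg hR.le, div_le_one hR]
          simpa using h2 (hz i))
        change distProd z ≤ _
        rw [hz', distProd_smul R hR.le]
        refine mul_le_mul_of_nonneg_left ?_ (by positivity)
        exact Real.le_sqrt_of_sq_le hle
    · rw [← hval]
      apply le_csSup
      · refine ⟨R ^ pairs n * Real.sqrt ((n : ℝ) ^ n), ?_⟩
        rintro P ⟨z, hz, rfl⟩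
        have hz' : z = fun i => (R : ℂ) * (z i / R) := by
          ext i
          rw [mul_div_cancel₀]
          exact_mod_cast hR.ne'
        have hle := distProd_le (by omega : 0 < n) (fun i => z i / (R : ℂ)) (fun i => by
          rw [norm_div, Complex.norm_real, Real.norm_of_nonneg hR.le, div_le_one hR]
          simpa using h2 (hz i))
        change distProd z ≤ _
        rw [hz', distProd_smul R hR.le]
        refine mul_le_mul_of_nonneg_left ?_ (by positivity)
        exact Real.le_sqrt_of_sq_le hle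
      · exact ⟨fun i => (R : ℂ) * root n i, fun i => h1 (by
          rw [mem_sphere_zero_iff_norm, norm_mul, norm_root, mul_one, Complex.norm_real,
            Real.norm_of_nonneg hR.le]), rfl⟩
  rw [feketeDiam, hsup, Real.mul_rpow (by positivity) (Real.sqrt_nonneg _)]
  congr 1
  · rw [← Real.rpow_natCast, ← Real.rpow_mul hR.le, pairs_eq]
    have : (n : ℝ) * (n - 1) / 2 * (2 / (n * (n - 1))) = 1 := by
      have : (n : ℝ) - 1 ≠ 0 := by linarith
      field_simp
    rw [this, Real.rpow_one]
  · rw [Real.sqrt_eq_rpow, ← Real.rpow_natCast, ← Real.rpow_mul hn0.le, ← Real.rpow_mul hn0.le]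
    congr 1
    have : (n : ℝ) - 1 ≠ 0 := by linarith
    field_simp

lemma tendsto_feketeDiam {R : ℝ} (hR : 0 < R) {E : Set ℂ} (h1 : Metric.sphere 0 R ⊆ E)
    (h2 : E ⊆ Metric.closedBall 0 R) : Tendsto (feketeDiam E) atTop (𝓝 R) := by
  have h3 : Tendsto (fun n : ℕ => R * (n : ℝ) ^ ((1 : ℝ) / (n - 1))) atTop (𝓝 (R * 1)) := by
    refine Tendsto.const_mul R ?_
    have h4 := tendsto_rpow_div_mul_add 1 1 (-1) (by norm_num)
    have h5 := h4.comp (tendsto_natCast_atTop_atTop (R := ℝ))
    refine h5.congr fun n => ?_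
    simp only [Function.comp_apply, one_mul]
    rfl
  rw [mul_one] at h3
  refine h3.congr' ?_
  filter_upwards [eventually_gt_atTop 1] with n hn
  exact (feketeDiam_eq hR h1 h2 hn).symm

end Pool.Agent.Helper19_LogPot
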