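import Pool.Agent.Helper19_LogPot.Potential
import Pool.Agent.Helper19_LogPot.Fekete

/-!
Thin annuli.
-/

open MeasureTheory Set Filter
open scoped ENNReal Real Topology

namespace Pool.Agent.Helper19_LogPot

/-- open annulus -/
def ann (r R : ℝ) : Set ℂ := {z | r < ‖z‖ ∧ ‖z‖ < R}

lemma isOpen_ann (r R : ℝ) : IsOpen (ann r R) :=
  (isOpen_lt continuous_const continuous_norm).inter (isOpen_lt continuous_norm continuous_const)

lemma ann_subset_ball (r R : ℝ) : ann r R ⊆ Metric.ball 0 R := fun z hz => by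
  rw [mem_ball_zero_iff]; exact hz.2

lemma isConnected_ann {r R : ℝ} (hr : 0 ≤ r) (hrR : r < R) : IsConnected (ann r R) := by
  have h : ann r R = (fun p : ℝ × ℝ => (p.1 : ℂ) * Complex.exp (p.2 * Complex.I)) ''
      (Ioo r R ×ˢ univ) := by
    ext z
    constructor
    · rintro ⟨h1, h2⟩
      refine ⟨(‖z‖, Complex.arg z), ⟨⟨h1, h2⟩, mem_univ _⟩, ?_⟩
      exact Complex.norm_mul_exp_arg_mul_I z
    · rintro ⟨⟨ρ, θ⟩, ⟨⟨h1, h2⟩, _⟩, rfl⟩
      have hρ : ‖(ρ : ℂ) * Complex.exp (θ * Complex.I)‖ = ρ := by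
        rw [norm_mul, Complex.norm_exp_ofReal_mul_I, mul_one, Complex.norm_real,
          Real.norm_of_nonneg (hr.trans h1.le)]
      constructor
      · simp only; rw [hρ]; exact h1
      · simp only; rw [hρ]; exact h2
  rw [h]
  refine IsConnected.image ?_ _ (by fun_prop)
  exact (isConnected_Ioo hrR).prod isConnected_univ

lemma sphere_subset_closure_ann {r R : ℝ} (hr : 0 ≤ r) (hrR : r < R) :
    Metric.sphere 0 R ⊆ closure (ann r R) := by
  intro z hz
  rw [mem_sphere_zero_iff_norm] at hz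
  have hR : 0 < R := lt_of_le_of_lt hr hrR
  have ht : Tendsto (fun s : ℝ => (s : ℂ) * z) (𝓝[<] 1) (𝓝 ((1 : ℝ) * z)) := by
    refine Tendsto.mono_left ?_ nhdsWithin_le_nhds
    exact ((Complex.continuous_ofReal.mul continuous_const).tendsto 1)
  rw [Complex.ofReal_one, one_mul] at ht
  refine mem_closure_of_tendsto ht ?_
  have h1 : ∀ᶠ s : ℝ in 𝓝[<] 1, r / R < s :=
    nhdsWithin_le_nhds (lt_mem_nhds ((div_lt_one hR).mpr hrR))
  have h2 : ∀ᶠ s : ℝ in 𝓝[<] 1, s < 1 := self_mem_nhdsWithin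
  filter_upwards [h1, h2] with s hs1 hs2
  have hs0 : 0 ≤ s := (div_nonneg hr hR.le).trans hs1.le
  have hn : ‖(s : ℂ) * z‖ = s * R := by
    rw [norm_mul, Complex.norm_real, Real.norm_of_nonneg hs0, hz]
  constructor
  · rw [hn]; rwa [div_lt_iff₀ hR] at hs1
  · rw [hn]; nlinarith

lemma closure_ann_subset (r R : ℝ) : closure (ann r R) ⊆ Metric.closedBall 0 R :=
  closure_minimal ((ann_subset_ball r R).trans Metric.ball_subset_closedBall) Metric.isClosed_closedBall

lemma volume_ann_le {r R : ℝ} (hr : 0 ≤ r) (hrR : r ≤ R) :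
    volume (ann r R) ≤ ENNReal.ofReal (π * (R ^ 2 - r ^ 2)) := by
  have h1 : ann r R ⊆ Metric.ball 0 R \ Metric.ball 0 r := by
    intro z hz
    refine ⟨ann_subset_ball r R hz, ?_⟩
    rw [mem_ball_zero_iff, not_lt]
    exact hz.1.le
  refine (measure_mono h1).trans ?_
  rw [measure_sdiff (Metric.ball_subset_ball hrR) Metric.isOpen_ball.measurableSet.nullMeasurableSet
    measure_ball_lt_top.ne, Complex.volume_ball, Complex.volume_ball]
  have hpi : ((NNReal.pi : NNReal) : ℝ≥0∞) = ENNReal.ofReal π := by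
    rw [ENNReal.ofReal]
    congr 1
    ext
    rw [Real.coe_toNNReal _ Real.pi_pos.le]
    rfl
  rw [hpi, ← ENNReal.ofReal_pow (hr.trans hrR), ← ENNReal.ofReal_pow hr,
    ← ENNReal.ofReal_mul (by positivity), ← ENNReal.ofReal_mul (by positivity),
    ← ENNReal.ofReal_sub _ (by positivity)]
  apply ENNReal.ofReal_le_ofReal
  nlinarith

/-- thin annuli have only small eigenvalues -/
lemma exists_thin {R t : ℝ} (hR : 0 < R) (ht : t < 0) : ∃ r, 0 ≤ r ∧ r < R ∧ ∃ b : ℝ, t < b ∧ b ≤ 0 ∧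
    ∀ s, IsLogEigenvalue (ann r R) s → b ≤ s := by
  set c : ℝ := (CK (2 * R)).toReal with hc
  have hc0 : 0 ≤ c := ENNReal.toReal_nonneg
  have hCK : CK (2 * R) = ENNReal.ofReal c := (ENNReal.ofReal_toReal (CK_lt_top _).ne).symm
  set δ : ℝ := min (R ^ 2) (t ^ 2 / (2 * π * (c + 1))) with hδ
  have ht2 : 0 < t ^ 2 := by nlinarith
  have hδ0 : 0 < δ := lt_min (by positivity) (div_pos ht2 (by positivity))
  have hδR : δ ≤ R ^ 2 := min_le_left _ _
  have hδt : δ * (2 * π * (c + 1)) ≤ t ^ 2 := by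
    have : δ ≤ t ^ 2 / (2 * π * (c + 1)) := min_le_right _ _
    rwa [le_div_iff₀ (by positivity)] at this
  refine ⟨Real.sqrt (R ^ 2 - δ), Real.sqrt_nonneg _, ?_, -Real.sqrt (π * δ * c), ?_, ?_, ?_⟩
  · rw [Real.sqrt_lt' hR]; linarith
  · have h1 : Real.sqrt (π * δ * c) < -t := by
      rw [Real.sqrt_lt' (by linarith)]
      have hπ := Real.pi_pos
      nlinarith [mul_nonneg (mul_nonneg hπ.le hδ0.le) hc0, mul_pos hπ hδ0]
    linarith
  · simp [Real.sqrt_nonneg]
  · intro s hs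
    have hb := eigenvalue_bound (isOpen_ann _ _).measurableSet (ann_subset_ball _ R) hs
    have hv := volume_ann_le (Real.sqrt_nonneg (R ^ 2 - δ)) (R := R) (by
      rw [Real.sqrt_le_left hR.le]; linarith)
    rw [Real.sq_sqrt (by linarith)] at hv
    have h2 : ENNReal.ofReal (s ^ 2) ≤ ENNReal.ofReal (π * δ * c) := by
      calc ENNReal.ofReal (s ^ 2) ≤ volume (ann (Real.sqrt (R ^ 2 - δ)) R) * CK (2 * R) := hb
        _ ≤ ENNReal.ofReal (π * (R ^ 2 - (R ^ 2 - δ))) * ENNReal.ofReal c := by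
            rw [← hCK]; gcongr
        _ = ENNReal.ofReal (π * δ * c) := by
            rw [← ENNReal.ofReal_mul (by ring_nf; positivity)]
            congr 1; ring
    rw [ENNReal.ofReal_le_ofReal_iff (by positivity)] at h2
    have h3 := Real.abs_le_sqrt h2
    exact (abs_le.mp h3).1

lemma bddBelow_eigenvalues (R : ℝ) :
    ∃ b : ℝ, ∀ s, IsLogEigenvalue (Metric.ball 0 R) s → b ≤ s := by
  refine ⟨-Real.sqrt ((volume (Metric.ball (0 : ℂ) R) * CK (2 * R)).toReal), fun s hs => ?_⟩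
  have hb := eigenvalue_bound Metric.isOpen_ball.measurableSet subset_rfl hs
  have hfin : volume (Metric.ball (0 : ℂ) R) * CK (2 * R) ≠ ∞ :=
    (ENNReal.mul_lt_top measure_ball_lt_top (CK_lt_top _)).ne
  rw [ENNReal.ofReal_le_iff_le_toReal hfin] at hb
  exact (abs_le.mp (Real.abs_le_sqrt hb)).1

end Pool.Agent.Helper19_LogPot
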