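import Mathlib

/-!
The entire function `I(s) = ∑ s^m / (m!)^2` (so that `I_0(kr) = I(k^2 r^2 / 4)`).
-/

open Set Filter Topology

namespace Pool.Agent.Helper19_LogPot

/-- coefficient `1/(m!)^2` -/
noncomputable def ac (m : ℕ) : ℝ := 1 / ((m.factorial : ℝ)) ^ 2

lemma ac_pos (m : ℕ) : 0 < ac m := by
  unfold ac; have := m.factorial_pos; positivity

lemma ac_succ (m : ℕ) : ((m : ℝ) + 1) ^ 2 * ac (m + 1) = ac m := by
  unfold ac
  have h : (m.factorial : ℝ) ≠ 0 := by exact_mod_cast m.factorial_ne_zero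
  rw [Nat.factorial_succ]
  push_cast
  field_simp

lemma ac_le (m : ℕ) : ac m ≤ 1 / (m.factorial : ℝ) := by
  unfold ac
  have h : (1 : ℝ) ≤ m.factorial := by exact_mod_cast m.factorial_pos
  apply one_div_le_one_div_of_le (by linarith)
  nlinarith

/-- `I(s)` -/
noncomputable def BI (s : ℝ) : ℝ := ∑' m : ℕ, ac m * s ^ m

/-- `I'(s)` -/
noncomputable def dBI (s : ℝ) : ℝ := ∑' m : ℕ, ac m * (m * s ^ (m - 1))

/-- `J(s) = s I'(s)` -/
noncomputable def BJ (s : ℝ) : ℝ := ∑' m : ℕ, (m * ac m) * s ^ m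

lemma summable_base (s : ℝ) : Summable fun m : ℕ => |s| ^ m / (m.factorial : ℝ) :=
  Real.summable_pow_div_factorial |s|

lemma summable_BI (s : ℝ) : Summable fun m : ℕ => ac m * s ^ m := by
  refine Summable.of_norm_bounded (summable_base s) fun m => ?_
  rw [norm_mul, norm_pow, Real.norm_eq_abs s, Real.norm_of_nonneg (ac_pos m).le, div_eq_inv_mul,
    ← one_div]
  exact mul_le_mul_of_nonneg_right (ac_le m) (by positivity)

lemma summable_deriv2 (s : ℝ) : Summable fun m : ℕ => (m * ac m) * (m * |s| ^ (m - 1)) := by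
  rw [← summable_nat_add_iff 1]
  refine Summable.of_norm_bounded (summable_base s) fun m => ?_
  have h1 : (((m + 1 : ℕ) : ℝ) * ac (m + 1)) * (((m + 1 : ℕ) : ℝ) * |s| ^ (m + 1 - 1)) = ac m * |s| ^ m := by
    rw [← ac_succ m, Nat.add_sub_cancel]; push_cast; ring
  rw [h1, norm_mul, norm_pow, Real.norm_of_nonneg (abs_nonneg s), Real.norm_of_nonneg (ac_pos m).le,
    div_eq_inv_mul, ← one_div]
  exact mul_le_mul_of_nonneg_right (ac_le m) (by positivity)

lemma summable_deriv1 (s : ℝ) : Summable fun m : ℕ => ac m * (m * |s| ^ (m - 1)) := by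
  refine Summable.of_nonneg_of_le (fun m => ?_) (fun m => ?_) (summable_deriv2 s)
  · have := (ac_pos m).le; positivity
  · rcases m with _ | m
    · simp
    · have h0 := (ac_pos (m + 1)).le
      have h1 : (0 : ℝ) ≤ ((m + 1 : ℕ) : ℝ) * |s| ^ (m + 1 - 1) := by positivity
      refine mul_le_mul_of_nonneg_right ?_ h1
      have : (1 : ℝ) ≤ ((m + 1 : ℕ) : ℝ) := by push_cast; linarith [(Nat.cast_nonneg m : (0 : ℝ) ≤ m)]
      nlinarith

lemma summable_BJ (s : ℝ) : Summable fun m : ℕ => (m * ac m) * s ^ m := by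
  have h := (summable_deriv1 s).mul_left |s|
  refine Summable.of_norm_bounded h fun m => ?_
  rw [norm_mul, norm_pow, Real.norm_eq_abs s, norm_mul, Real.norm_of_nonneg (ac_pos m).le,
    Real.norm_of_nonneg (Nat.cast_nonneg m)]
  rcases m with _ | m
  · simp
  · rw [Nat.add_sub_cancel, pow_succ]
    apply le_of_eq; ring

lemma BJ_eq (s : ℝ) : BJ s = s * dBI s := by
  unfold BJ dBI
  rw [← tsum_mul_left]
  refine tsum_congr fun m => ?_
  rcases m with _ | m
  · simp
  · rw [Nat.add_sub_cancel, pow_succ]; ring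

lemma hasDerivAt_BI (s : ℝ) : HasDerivAt BI (dBI s) s := by
  set ρ := |s| + 1 with hρ
  have hρ0 : 0 < ρ := by positivity
  have hs : s ∈ Metric.ball (0 : ℝ) ρ := by
    rw [mem_ball_zero_iff, Real.norm_eq_abs]; linarith
  refine hasDerivAt_tsum_of_isPreconnected (g := fun m (z : ℝ) => ac m * z ^ m)
    (g' := fun m (z : ℝ) => ac m * (m * z ^ (m - 1)))
    (u := fun m => ac m * (m * |ρ| ^ (m - 1))) (summable_deriv1 ρ) Metric.isOpen_ball
    (convex_ball _ _).isPreconnected (fun m y _ => ?_) (fun m y hy => ?_) hs (summable_BI s) hs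
  · exact (hasDerivAt_pow m y).const_mul (ac m)
  · rw [norm_mul, norm_mul, norm_pow, Real.norm_of_nonneg (ac_pos m).le,
      Real.norm_of_nonneg (Nat.cast_nonneg m)]
    have h1 : ‖y‖ ≤ |ρ| := by
      rw [mem_ball_zero_iff] at hy
      exact hy.le.trans (le_abs_self ρ)
    have := (ac_pos m).le
    gcongr

lemma hasDerivAt_BJ (s : ℝ) : HasDerivAt BJ (BI s) s := by
  set ρ := |s| + 1 with hρ
  have hs : s ∈ Metric.ball (0 : ℝ) ρ := by
    rw [mem_ball_zero_iff, Real.norm_eq_abs]; linarith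
  have h := hasDerivAt_tsum_of_isPreconnected (g := fun m (z : ℝ) => (m * ac m) * z ^ m)
    (g' := fun m (z : ℝ) => (m * ac m) * (m * z ^ (m - 1)))
    (u := fun m => (m * ac m) * (m * |ρ| ^ (m - 1))) (summable_deriv2 ρ) Metric.isOpen_ball
    (convex_ball _ _).isPreconnected (fun m y _ => ?_) (fun m y hy => ?_) hs (summable_BJ s) hs
  · have h2 : BI s = ∑' m : ℕ, (m * ac m) * (m * s ^ (m - 1)) := by
      have hsum : Summable fun m : ℕ => (m * ac m) * (m * s ^ (m - 1)) := by
        refine Summable.of_norm_bounded (summable_deriv2 s) fun m => ?_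
        rw [norm_mul, norm_mul, norm_mul, norm_pow, Real.norm_of_nonneg (ac_pos m).le,
          Real.norm_of_nonneg (Nat.cast_nonneg m), Real.norm_eq_abs]
      rw [hsum.tsum_eq_zero_add]
      simp only [Nat.cast_zero, zero_mul, zero_add]
      refine tsum_congr fun m => ?_
      rw [← ac_succ m, Nat.add_sub_cancel]; push_cast; ring
    rw [h2]
    exact h
  · exact (hasDerivAt_pow m y).const_mul (m * ac m)
  · rw [norm_mul, norm_mul, norm_mul, norm_pow, Real.norm_of_nonneg (ac_pos m).le,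
      Real.norm_of_nonneg (Nat.cast_nonneg m)]
    have h1 : ‖y‖ ≤ |ρ| := by
      rw [mem_ball_zero_iff] at hy
      exact hy.le.trans (le_abs_self ρ)
    have := (ac_pos m).le
    gcongr

lemma BI_zero : BI 0 = 1 := by
  unfold BI
  rw [(summable_BI 0).tsum_eq_zero_add]
  simp [ac]

lemma BJ_zero : BJ 0 = 0 := by rw [BJ_eq]; simp

lemma one_le_BI {s : ℝ} (hs : 0 ≤ s) : 1 ≤ BI s := by
  unfold BI
  have := (summable_BI s).sum_le_tsum (Finset.range 1) (fun m _ => by
    have := (ac_pos m).le; positivity)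
  simpa [ac] using this

lemma growth (M : ℕ) (hM : 0 < M) :
    (M : ℝ) / 2 * BI ((2 * M : ℝ) ^ 2) ≤ BJ ((2 * M : ℝ) ^ 2) := by
  set A : ℝ := (2 * M : ℝ) ^ 2 with hA
  have hA0 : 0 < A := by positivity
  set tail : ℝ := ∑' m : ℕ, ac (m + M) * A ^ (m + M) with htail
  have hsI := summable_BI A
  have hst : Summable fun m : ℕ => ac (m + M) * A ^ (m + M) := (summable_nat_add_iff M).mpr hsI
  have hI : BI A = ∑ m ∈ Finset.range M, ac m * A ^ m + tail := (hsI.sum_add_tsum_nat_add M).symm
  have hhead : ∑ m ∈ Finset.range M, ac m * A ^ m ≤ tail := by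
    calc ∑ m ∈ Finset.range M, ac m * A ^ m ≤ ∑ m ∈ Finset.range M, ac (m + M) * A ^ (m + M) := by
          refine Finset.sum_le_sum fun m hm => ?_
          have hmM : m < M := Finset.mem_range.mp hm
          have hf1 : ((m + M).factorial : ℝ) ≤ m.factorial * (2 * M : ℝ) ^ M := by
            have h1 := Nat.factorial_mul_ascFactorial m M
            have h2 := Nat.ascFactorial_le_pow_add m M
            have h3 : (m + M).factorial ≤ m.factorial * (2 * M) ^ M := by
              rw [← h1]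
              refine Nat.mul_le_mul_left _ (h2.trans ?_)
              exact Nat.pow_le_pow_left (by omega) M
            exact_mod_cast h3
          have hp : (0 : ℝ) < m.factorial := by exact_mod_cast m.factorial_pos
          have hp2 : (0 : ℝ) < (m + M).factorial := by exact_mod_cast (m + M).factorial_pos
          have h4 : ((m + M).factorial : ℝ) ^ 2 ≤ m.factorial ^ 2 * A ^ M := by
            calc ((m + M).factorial : ℝ) ^ 2 ≤ (m.factorial * (2 * M : ℝ) ^ M) ^ 2 :=
                  pow_le_pow_left₀ hp2.le hf1 2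
              _ = m.factorial ^ 2 * A ^ M := by rw [hA, mul_pow, pow_right_comm]
          unfold ac
          rw [pow_add, div_mul_eq_mul_div, div_mul_eq_mul_div, one_mul, one_mul,
            div_le_div_iff₀ (by positivity) (by positivity)]
          have hAm : 0 < A ^ m := by positivity
          nlinarith
      _ ≤ tail := hst.sum_le_tsum _ (fun m _ => by have := (ac_pos (m + M)).le; positivity)
  have hJ : (M : ℝ) * tail ≤ BJ A := by
    have hsJ := summable_BJ A
    have hsJt : Summable fun m : ℕ => (((m + M : ℕ) : ℝ) * ac (m + M)) * A ^ (m + M) :=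
      (summable_nat_add_iff (f := fun m : ℕ => ((m : ℝ) * ac m) * A ^ m) M).mpr hsJ
    have h1 : BJ A = ∑ m ∈ Finset.range M, (m * ac m) * A ^ m
        + ∑' m : ℕ, (((m + M : ℕ) : ℝ) * ac (m + M)) * A ^ (m + M) :=
      (hsJ.sum_add_tsum_nat_add M).symm
    have h2 : 0 ≤ ∑ m ∈ Finset.range M, (m * ac m) * A ^ m :=
      Finset.sum_nonneg fun m _ => by have := (ac_pos m).le; positivity
    have h3 : (M : ℝ) * tail ≤ ∑' m : ℕ, (((m + M : ℕ) : ℝ) * ac (m + M)) * A ^ (m + M) := by
      rw [htail, ← tsum_mul_left]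
      refine (hst.mul_left _).tsum_le_tsum (fun m => ?_) hsJt
      have := (ac_pos (m + M)).le
      rw [mul_assoc]
      refine mul_le_mul_of_nonneg_right ?_ (by positivity)
      push_cast
      linarith [(Nat.cast_nonneg m : (0 : ℝ) ≤ m)]
    linarith
  have hM' : (0 : ℝ) < M := by exact_mod_cast hM
  nlinarith

/-- The transcendental equation `2 c J(a) = I(a)` has a positive solution for every `c > 0`. -/
lemma exists_root {c : ℝ} (hc : 0 < c) : ∃ a : ℝ, 0 < a ∧ 2 * c * BJ a = BI a := by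
  obtain ⟨M, hM⟩ := exists_nat_gt (1 / c)
  have hM0 : 0 < M := by
    have : (0 : ℝ) < M := lt_trans (by positivity) hM
    exact_mod_cast this
  have hcont : ContinuousOn (fun a => 2 * c * BJ a - BI a) (Icc 0 ((2 * M : ℝ) ^ 2)) := by
    refine ContinuousOn.sub (ContinuousOn.mul continuousOn_const ?_) ?_
    · exact fun x _ => (hasDerivAt_BJ x).continuousAt.continuousWithinAt
    · exact fun x _ => (hasDerivAt_BI x).continuousAt.continuousWithinAt
  have h0 : (fun a => 2 * c * BJ a - BI a) 0 ≤ 0 := by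
    simp only [BJ_zero, BI_zero]; norm_num
  have h1 : 0 ≤ (fun a => 2 * c * BJ a - BI a) ((2 * M : ℝ) ^ 2) := by
    have hg := growth M hM0
    have hI : 0 < BI ((2 * M : ℝ) ^ 2) := lt_of_lt_of_le one_pos (one_le_BI (by positivity))
    have hcM : 1 ≤ c * M := by
      rw [div_lt_iff₀ hc] at hM
      linarith
    simp only
    have h2 : 2 * c * ((M : ℝ) / 2 * BI ((2 * M : ℝ) ^ 2)) ≤ 2 * c * BJ ((2 * M : ℝ) ^ 2) :=
      mul_le_mul_of_nonneg_left hg (by positivity)
    nlinarith
  have hle : (0 : ℝ) ≤ (2 * M : ℝ) ^ 2 := by positivity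
  obtain ⟨a, ha, hfa⟩ := intermediate_value_Icc hle hcont ⟨h0, h1⟩
  simp only at hfa
  refine ⟨a, lt_of_le_of_ne ha.1 ?_, by linarith⟩
  rintro rfl
  rw [BJ_zero, BI_zero] at hfa
  norm_num at hfa

end Pool.Agent.Helper19_LogPot
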