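import Mathlib

/-!
Definitions for MP_ccba21_an: bounded domains of the plane `ℝ² = ℂ`, the transfinite diameter, the
eigenvalues of the logarithmic potential operator and its negative eigenvalue.
-/

open MeasureTheory Filter Topology

namespace Pool.Agent.Helper19_LogPot

/-- A bounded domain: a nonempty, bounded, connected, open subset of the plane
(`IsConnected` includes nonemptiness). -/
def IsBoundedDomain (Ω : Set ℂ) : Prop := IsOpen Ω ∧ IsConnected Ω ∧ Bornology.IsBounded Ω

/-- The `n`-th quantity in the definition of the transfinite diameter of `E`: the supremum over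
`n`-tuples of points of `E` of the product of their mutual distances, to the power `2/(n(n-1))`. -/
noncomputable def feketeDiam (E : Set ℂ) (n : ℕ) : ℝ :=
  (sSup {P : ℝ | ∃ z : Fin n → ℂ, (∀ i, z i ∈ E) ∧ P = ∏ i, ∏ j ∈ Finset.Ioi i, ‖z i - z j‖}) ^
    (2 / ((n : ℝ) * (n - 1)))

/-- `T(Ω) = T`: the transfinite diameter of the closure of `Ω` exists and is equal to `T`. -/
def HasTransfiniteDiameter (Ω : Set ℂ) (T : ℝ) : Prop :=
  Tendsto (feketeDiam (closure Ω)) atTop (𝓝 T)

/-- `t` is an eigenvalue of the logarithmic potential operator of `Ω` on (real) `L²(Ω)`: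
there is a nonzero `u ∈ L²(Ω)` with `∫_Ω log (1 / |x - y|) u(y) dy = t u(x)` for a.e. `x ∈ Ω`. -/
def IsLogEigenvalue (Ω : Set ℂ) (t : ℝ) : Prop :=
  ∃ u : ℂ → ℝ, MemLp u 2 (volume.restrict Ω) ∧ ¬ u =ᵐ[volume.restrict Ω] 0 ∧
    ∀ᵐ x ∂(volume.restrict Ω), ∫ y in Ω, Real.log (1 / ‖x - y‖) * u y = t * u x

/-- `τ̃₁(Ω)`: the negative eigenvalue of the logarithmic potential operator of `Ω` if there is one
(the infimum of the set of negative eigenvalues, which has at most one element and is bounded below),
and `0` if there is none (`sInf ∅ = 0`). -/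
noncomputable def tau (Ω : Set ℂ) : ℝ := sInf {t : ℝ | t < 0 ∧ IsLogEigenvalue Ω t}

end Pool.Agent.Helper19_LogPot
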