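import Mathlib

/-! The ellipse with semi-axes `ρ(1+q)` and `ρ(1-q)` in the plane `ℝ² = ℂ`. -/

namespace Pool.Agent.Helper19_LogPot

/-- The (open) ellipse with semi-axes `ρ(1+q)` and `ρ(1-q)`. -/
def Ell (ρ q : ℝ) : Set ℂ := {z : ℂ | (z.re / (ρ * (1 + q))) ^ 2 + (z.im / (ρ * (1 - q))) ^ 2 < 1}

end Pool.Agent.Helper19_LogPot
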