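import Pool.Agent.Helper19_LogPot.Annulus
import Pool.Agent.Helper19_LogPot.EllDef

/-!
The transfinite diameter of the closed ellipse with semi-axes `ρ(1+q)`, `ρ(1-q)` is `ρ`.
-/

set_option autoImplicit false

open Filter Topology MeasureTheory Matrix
open scoped ENNReal

namespace Pool.Agent.Helper19_LogPot

/-- The closed ellipse. -/
def EllC (ρ q : ℝ) : Set ℂ := {z : ℂ | (z.re / (ρ * (1 + q))) ^ 2 + (z.im / (ρ * (1 - q))) ^ 2 ≤ 1}

/-! ### polynomials -/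

/-- Chebyshev polynomials (second kind) of the ellipse. -/
noncomputable def chP (κ : ℂ) : ℕ → Polynomial ℂ
  | 0 => 1
  | 1 => Polynomial.X
  | (k + 2) => Polynomial.X * chP κ (k + 1) - Polynomial.C κ * chP κ k

lemma chP_monic (κ : ℂ) (k : ℕ) : (chP κ k).Monic ∧ (chP κ k).natDegree = k := by
  induction k using Nat.strong_induction_on with
  | _ k ih =>
    match k with
    | 0 => simp [chP]
    | 1 => simp [chP]
    | (k + 2) =>
      obtain ⟨h1, h2⟩ := ih (k + 1) (by omega)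
      obtain ⟨h3, h4⟩ := ih k (by omega)
      have hX : (Polynomial.X * chP κ (k + 1)).Monic := Polynomial.monic_X.mul h1
      have hd : (Polynomial.X * chP κ (k + 1)).natDegree = k + 2 := by
        rw [Polynomial.Monic.natDegree_mul Polynomial.monic_X h1, Polynomial.natDegree_X, h2]
        ring
      have hle : (Polynomial.C κ * chP κ k).natDegree ≤ k := by
        refine (Polynomial.natDegree_C_mul_le _ _).trans h4.le
      have hlt : (Polynomial.C κ * chP κ k).degree < (Polynomial.X * chP κ (k + 1)).degree := by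
        apply Polynomial.degree_lt_degree
        omega
      refine ⟨hX.sub_of_left hlt, ?_⟩
      rw [chP, Polynomial.natDegree_sub_eq_left_of_natDegree_lt (by omega), hd]

lemma eval_chP (ζ η : ℂ) (k : ℕ) :
    (chP (ζ * η) k).eval (ζ + η) = ∑ j ∈ Finset.range (k + 1), ζ ^ j * η ^ (k - j) := by
  have hS : ∀ k : ℕ, ∑ j ∈ Finset.range (k + 2), ζ ^ j * η ^ (k + 1 - j)
      = η * (∑ j ∈ Finset.range (k + 1), ζ ^ j * η ^ (k - j)) + ζ ^ (k + 1) := by
    intro k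
    rw [Finset.sum_range_succ, Finset.mul_sum, Nat.sub_self, pow_zero, mul_one]
    congr 1
    refine Finset.sum_congr rfl fun j hj => ?_
    have hj' := Finset.mem_range.1 hj
    rw [show k + 1 - j = (k - j) + 1 by omega, pow_succ]
    ring
  induction k using Nat.strong_induction_on with
  | _ k ih =>
    match k with
    | 0 => simp [chP]
    | 1 => simp [chP, Finset.sum_range_succ, add_comm]
    | (k + 2) =>
      rw [chP, Polynomial.eval_sub, Polynomial.eval_mul, Polynomial.eval_mul, Polynomial.eval_X,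
        Polynomial.eval_C, ih (k + 1) (by omega), ih k (by omega), hS (k + 1), hS k]
      ring

lemma norm_eval_chP {ρ : ℝ} {ζ η : ℂ} (h1 : ‖ζ‖ ≤ ρ) (h2 : ‖η‖ ≤ ρ) (k : ℕ) :
    ‖(chP (ζ * η) k).eval (ζ + η)‖ ≤ (k + 1 : ℕ) * ρ ^ k := by
  have hρ : 0 ≤ ρ := (norm_nonneg _).trans h1
  rw [eval_chP]
  refine (norm_sum_le _ _).trans ?_
  calc ∑ j ∈ Finset.range (k + 1), ‖ζ ^ j * η ^ (k - j)‖
      ≤ ∑ _j ∈ Finset.range (k + 1), ρ ^ k := by
        refine Finset.sum_le_sum fun j hj => ?_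
        have hj' := Finset.mem_range.1 hj
        rw [norm_mul, norm_pow, norm_pow]
        calc ‖ζ‖ ^ j * ‖η‖ ^ (k - j) ≤ ρ ^ j * ρ ^ (k - j) := by gcongr
          _ = ρ ^ k := by rw [← pow_add]; congr 1; omega
    _ = (k + 1 : ℕ) * ρ ^ k := by simp

/-! ### the roots of `w² - z w + q ρ²` -/

lemma norm_root_le {ρ q : ℝ} (hρ : 0 < ρ) (hq0 : 0 ≤ q) (hq1 : q < 1) {ζ η : ℂ}
    (hprod : ζ * η = ((q * ρ ^ 2 : ℝ) : ℂ)) (hz : ζ + η ∈ EllC ρ q) : ‖ζ‖ ≤ ρ := by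
  by_contra hcon
  push Not at hcon
  set s : ℝ := ‖ζ‖ with hs
  have hs0 : 0 < s := hρ.trans hcon
  have hζ0 : ζ ≠ 0 := by
    intro h; rw [h, norm_zero] at hs; linarith
  have hsq : ζ.re ^ 2 + ζ.im ^ 2 = s ^ 2 := by
    rw [hs, ← Complex.normSq_eq_norm_sq, Complex.normSq_apply]; ring
  have hη : η = ((q * ρ ^ 2 / s ^ 2 : ℝ) : ℂ) * (starRingEnd ℂ) ζ := by
    have h1 : ζ * (starRingEnd ℂ) ζ = ((s ^ 2 : ℝ) : ℂ) := by
      rw [Complex.mul_conj, Complex.normSq_eq_norm_sq]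
    apply mul_left_cancel₀ hζ0
    rw [hprod]
    calc ((q * ρ ^ 2 : ℝ) : ℂ) = ((q * ρ ^ 2 / s ^ 2 : ℝ) : ℂ) * ((s ^ 2 : ℝ) : ℂ) := by
          rw [← Complex.ofReal_mul]; congr 1; field_simp
      _ = _ := by rw [← h1]; ring
  set t : ℝ := q * ρ ^ 2 / s ^ 2 with ht
  have hre : (ζ + η).re = ζ.re * (1 + t) := by
    rw [hη, Complex.add_re, Complex.re_ofReal_mul, Complex.conj_re]; ring
  have him : (ζ + η).im = ζ.im * (1 - t) := by
    rw [hη, Complex.add_im, Complex.im_ofReal_mul, Complex.conj_im]; ring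
  have hρs : ρ * ρ < s * s := by nlinarith
  have hts : t * s ^ 2 = q * ρ ^ 2 := by rw [ht]; field_simp
  have hA : ρ * (1 + q) < s * (1 + t) := by
    have h1 : 0 < (s - ρ) * (s - q * ρ) := mul_pos (by linarith) (by nlinarith)
    have h2 : (s * (1 + t)) * s = s ^ 2 + q * ρ ^ 2 := by rw [← hts]; ring
    have h3 : (ρ * (1 + q)) * s < (s * (1 + t)) * s := by rw [h2]; nlinarith
    exact lt_of_mul_lt_mul_right h3 hs0.le
  have hB : ρ * (1 - q) < s * (1 - t) := by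
    have h1 : 0 < (s - ρ) * (s + q * ρ) := mul_pos (by linarith) (by nlinarith [mul_nonneg hq0 hρ.le])
    have h2 : (s * (1 - t)) * s = s ^ 2 - q * ρ ^ 2 := by rw [← hts]; ring
    have h3 : (ρ * (1 - q)) * s < (s * (1 - t)) * s := by rw [h2]; nlinarith
    exact lt_of_mul_lt_mul_right h3 hs0.le
  have ha0 : 0 < ρ * (1 + q) := by positivity
  have hb0 : 0 < ρ * (1 - q) := mul_pos hρ (by linarith)
  have hz' : (ζ.re * (1 + t) / (ρ * (1 + q))) ^ 2 + (ζ.im * (1 - t) / (ρ * (1 - q))) ^ 2 ≤ 1 := by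
    have h := hz
    unfold EllC at h
    rw [Set.mem_ofPred_eq, hre, him] at h
    exact h
  set A : ℝ := s * (1 + t) / (ρ * (1 + q)) with hAd
  set B : ℝ := s * (1 - t) / (ρ * (1 - q)) with hBd
  have hA1 : 1 < A := by rw [hAd, lt_div_iff₀ ha0]; linarith
  have hB1 : 1 < B := by rw [hBd, lt_div_iff₀ hb0]; linarith
  have e1 : ζ.re * (1 + t) / (ρ * (1 + q)) = (ζ.re / s) * A := by
    rw [hAd]; field_simp
  have e2 : ζ.im * (1 - t) / (ρ * (1 - q)) = (ζ.im / s) * B := by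
    rw [hBd]; field_simp
  have e3 : (ζ.re / s) ^ 2 + (ζ.im / s) ^ 2 = 1 := by
    rw [div_pow, div_pow, ← add_div, hsq, div_self (by positivity)]
  rw [e1, e2, mul_pow, mul_pow] at hz'
  have hA2 : 1 < A ^ 2 := by nlinarith
  have hB2 : 1 < B ^ 2 := by nlinarith
  rcases (sq_nonneg (ζ.re / s)).eq_or_lt with h0 | h0
  · rw [← h0] at e3 hz'
    nlinarith
  · nlinarith [mul_pos h0 (sub_pos.2 hA2), mul_nonneg (sq_nonneg (ζ.im / s)) (sub_pos.2 hB2).le]

lemma exists_roots {ρ q : ℝ} (hρ : 0 < ρ) (hq0 : 0 ≤ q) (hq1 : q < 1) {z : ℂ}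
    (hz : z ∈ EllC ρ q) : ∃ ζ η : ℂ, ζ + η = z ∧ ζ * η = ((q * ρ ^ 2 : ℝ) : ℂ) ∧
      ‖ζ‖ ≤ ρ ∧ ‖η‖ ≤ ρ := by
  obtain ⟨w, hw⟩ := IsAlgClosed.exists_pow_nat_eq (z ^ 2 - 4 * ((q * ρ ^ 2 : ℝ) : ℂ))
    (n := 2) (by norm_num)
  have h1 : (z + w) / 2 + (z - w) / 2 = z := by ring
  have h2 : (z + w) / 2 * ((z - w) / 2) = ((q * ρ ^ 2 : ℝ) : ℂ) := by
    have : (z + w) / 2 * ((z - w) / 2) = (z ^ 2 - w ^ 2) / 4 := by ring
    rw [this, hw]; ring
  refine ⟨(z + w) / 2, (z - w) / 2, h1, h2, ?_, ?_⟩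
  · exact norm_root_le hρ hq0 hq1 h2 (by rw [h1]; exact hz)
  · exact norm_root_le hρ hq0 hq1 (by rw [mul_comm]; exact h2) (by rw [add_comm, h1]; exact hz)

/-! ### upper bound -/

lemma prod_pow_fin (ρ : ℝ) (n : ℕ) : ∏ i : Fin n, ρ ^ (i : ℕ) = ρ ^ pairs n := by
  have h : pairs n = ∑ i : Fin n, (i : ℕ) := by
    have h1 : (pairs n : ℝ) = ((∑ i : Fin n, (i : ℕ) : ℕ) : ℝ) := by
      rw [pairs_eq, Fin.sum_univ_eq_sum_range (fun i => i) n]
      have h2 := Finset.sum_range_id_mul_two n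
      have h3 : ((∑ i ∈ Finset.range n, i : ℕ) : ℝ) * 2 = n * ((n - 1 : ℕ) : ℝ) := by
        exact_mod_cast h2
      rcases Nat.eq_zero_or_pos n with rfl | hn
      · simp
      · rw [Nat.cast_sub hn] at h3
        push_cast at h3 ⊢
        linarith
    exact_mod_cast h1
  rw [h, Finset.prod_pow_eq_pow_sum]

lemma norm_det_le {n : ℕ} (A : Matrix (Fin n) (Fin n) ℂ) (c : Fin n → ℝ)
    (h : ∀ i j, ‖A i j‖ ≤ c j) : ‖A.det‖ ≤ (n.factorial : ℝ) * ∏ j, c j := by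
  rw [det_apply]
  refine (norm_sum_le _ _).trans ?_
  have hterm : ∀ σ : Equiv.Perm (Fin n), ‖Equiv.Perm.sign σ • ∏ i, A (σ i) i‖ ≤ ∏ j, c j := by
    intro σ
    have e1 : ‖Equiv.Perm.sign σ • ∏ i, A (σ i) i‖ = ∏ i : Fin n, ‖A (σ i) i‖ := by
      rcases Int.units_eq_one_or (Equiv.Perm.sign σ) with h | h
      · rw [h, one_smul, norm_prod]
      · rw [h, Units.neg_smul, one_smul, norm_neg, norm_prod]
    rw [e1]
    exact Finset.prod_le_prod (fun _ _ => norm_nonneg _) fun i _ => h _ _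
  calc _ ≤ ∑ _σ : Equiv.Perm (Fin n), ∏ j, c j :=
        Finset.sum_le_sum fun σ _ => hterm σ
    _ = (n.factorial : ℝ) * ∏ j, c j := by
        rw [Finset.sum_const, Finset.card_univ, Fintype.card_perm, Fintype.card_fin, nsmul_eq_mul]

lemma distProd_ell {ρ q : ℝ} (hρ : 0 < ρ) (hq0 : 0 ≤ q) (hq1 : q < 1) {n : ℕ} (z : Fin n → ℂ)
    (hz : ∀ i, z i ∈ EllC ρ q) : distProd z ≤ ((n : ℝ) ^ n * (n : ℝ) ^ n) * ρ ^ pairs n := by
  rw [distProd_eq, det_eval_matrixOfPolynomials_eq_det_vandermonde z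
    (fun i => chP ((q * ρ ^ 2 : ℝ) : ℂ) i) (fun i => (chP_monic _ _).2) (fun i => (chP_monic _ _).1)]
  refine (norm_det_le _ (fun j => n * ρ ^ (j : ℕ)) ?_).trans ?_
  · intro i j
    obtain ⟨ζ, η, h1, h2, h3, h4⟩ := exists_roots hρ hq0 hq1 (hz i)
    rw [of_apply, ← h1, ← h2]
    refine (norm_eval_chP h3 h4 j).trans ?_
    have : ((j : ℕ) + 1 : ℕ) ≤ n := j.2
    have h5 : (((j : ℕ) + 1 : ℕ) : ℝ) ≤ n := by exact_mod_cast this
    gcongr
  · rw [Finset.prod_mul_distrib, prod_pow_fin, Finset.prod_const, Finset.card_univ,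
      Fintype.card_fin]
    have : (n.factorial : ℝ) ≤ (n : ℝ) ^ n := by exact_mod_cast Nat.factorial_le_pow n
    calc _ ≤ (n : ℝ) ^ n * ((n : ℝ) ^ n * ρ ^ pairs n) := by gcongr
      _ = _ := by ring

end Pool.Agent.Helper19_LogPot
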