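import Pool.Agent.Helper19_LogPot.Ellipse

/-!
Lower bound for the Fekete products of the ellipse, and the transfinite diameter.
-/

set_option autoImplicit false

open Filter Topology MeasureTheory
open scoped ENNReal ComplexConjugate

namespace Pool.Agent.Helper19_LogPot

lemma root_pow {n : ℕ} (hn : 0 < n) (i : Fin n) : root n i ^ n = 1 := by
  have hprim := Complex.isPrimitiveRoot_exp n hn.ne'
  calc root n i ^ n = (Complex.exp (2 * Real.pi * Complex.I / n) ^ n) ^ (i : ℕ) := by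
        rw [root, ← pow_mul, ← pow_mul, mul_comm n (i : ℕ)]
    _ = 1 := by rw [hprim.pow_eq_one, one_pow]

lemma prod_one_sub {n : ℕ} (hn : 0 < n) (y : ℂ) :
    ∏ j : Fin n, (1 - root n j * y) = 1 - y ^ n := by
  have hprim := Complex.isPrimitiveRoot_exp n hn.ne'
  have h := congrArg (Polynomial.eval 1) (X_pow_sub_C_eq_prod hprim hn (rfl : y ^ n = y ^ n))
  rw [Polynomial.eval_prod] at h
  simp only [Polynomial.eval_sub, Polynomial.eval_pow, Polynomial.eval_X, Polynomial.eval_C,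
    one_pow] at h
  rw [h]
  unfold root
  exact Fin.prod_univ_eq_prod_range
    (fun j => 1 - Complex.exp (2 * Real.pi * Complex.I / n) ^ j * y) n

/-- The correction factor. -/
noncomputable def Wq (n : ℕ) (q : ℝ) : ℝ :=
  ∏ i : Fin n, ∏ j ∈ Finset.Ioi i, ‖1 - (q : ℂ) * root n i * root n j‖

lemma Wq_nonneg (n : ℕ) (q : ℝ) : 0 ≤ Wq n q :=
  Finset.prod_nonneg fun _ _ => Finset.prod_nonneg fun _ _ => norm_nonneg _

lemma Wq_sq {n : ℕ} (hn : 0 < n) {q : ℝ} (hq0 : 0 ≤ q) (hq1 : q < 1) :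
    Wq n q ^ 2 * ∏ i : Fin n, ‖1 - (q : ℂ) * root n i * root n i‖ = (1 - q ^ n) ^ n := by
  set f : Fin n → Fin n → ℝ := fun i j => ‖1 - (q : ℂ) * root n i * root n j‖ with hf
  have hsymm : ∀ i j, f i j = f j i := by
    intro i j; simp only [hf]; congr 2; ring
  have h1 := Finset.prod_prod_Ioi_mul_eq_prod_prod_off_diag f
  have h2 : ∏ i : Fin n, ∏ j ∈ Finset.Ioi i, f j i * f i j = Wq n q ^ 2 := by
    rw [pow_two, Wq, ← Finset.prod_mul_distrib]
    refine Finset.prod_congr rfl fun i _ => ?_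
    rw [← Finset.prod_mul_distrib]
    refine Finset.prod_congr rfl fun j _ => ?_
    rw [hsymm j i]
  rw [← h2, h1, ← Finset.prod_mul_distrib]
  have h3 : ∀ i : Fin n, (∏ j ∈ {i}ᶜ, f j i) * ‖1 - (q : ℂ) * root n i * root n i‖ = 1 - q ^ n := by
    intro i
    have h4 : (∏ j ∈ {i}ᶜ, f j i) * f i i = ∏ j, f j i := by
      rw [mul_comm, ← Finset.prod_singleton (fun j => f j i) i, Finset.prod_mul_prod_compl]
    have h5 : ∏ j, f j i = ‖1 - ((q : ℂ) * root n i) ^ n‖ := by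
      rw [← prod_one_sub hn, norm_prod]
      refine Finset.prod_congr rfl fun j _ => ?_
      simp only [hf]; congr 2; ring
    change (∏ j ∈ {i}ᶜ, f j i) * f i i = _
    rw [h4, h5, mul_pow, root_pow hn, mul_one, ← Complex.ofReal_pow, ← Complex.ofReal_one,
      ← Complex.ofReal_sub, Complex.norm_real, Real.norm_of_nonneg]
    have := pow_le_one₀ (n := n) hq0 hq1.le
    linarith
  rw [Finset.prod_congr rfl fun i _ => h3 i]
  simp

lemma Wq_lower {n : ℕ} (hn : 0 < n) {q : ℝ} (hq0 : 0 ≤ q) (hq1 : q < 1) :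
    ((1 - q) / 2) ^ n ≤ Wq n q ^ 2 := by
  have h1 := Wq_sq hn hq0 hq1
  have h2 : ∏ i : Fin n, ‖1 - (q : ℂ) * root n i * root n i‖ ≤ 2 ^ n := by
    calc ∏ i : Fin n, ‖1 - (q : ℂ) * root n i * root n i‖ ≤ ∏ _i : Fin n, (2 : ℝ) := by
          refine Finset.prod_le_prod (fun _ _ => norm_nonneg _) fun i _ => ?_
          refine (norm_sub_le _ _).trans ?_
          rw [norm_mul, norm_mul, norm_root, Complex.norm_real, Real.norm_of_nonneg hq0, norm_one]
          linarith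
      _ = 2 ^ n := by simp
  have h3 : (1 - q) ^ n ≤ (1 - q ^ n) ^ n := by
    apply pow_le_pow_left₀ (by linarith)
    have : q ^ n ≤ q := pow_le_of_le_one hq0 hq1.le hn.ne'
    linarith
  rw [div_pow, div_le_iff₀ (by positivity)]
  calc (1 - q) ^ n ≤ (1 - q ^ n) ^ n := h3
    _ = Wq n q ^ 2 * ∏ i : Fin n, ‖1 - (q : ℂ) * root n i * root n i‖ := h1.symm
    _ ≤ Wq n q ^ 2 * 2 ^ n := by gcongr

/-- Fekete points of the ellipse. -/
noncomputable def fek (ρ q : ℝ) (n : ℕ) (i : Fin n) : ℂ :=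
  (ρ : ℂ) * (root n i + (q : ℂ) * conj (root n i))

lemma distProd_fek {ρ q : ℝ} (hρ : 0 < ρ) (n : ℕ) :
    distProd (fek ρ q n) = ρ ^ pairs n * (distProd (root n) * Wq n q) := by
  have h1 : distProd (fek ρ q n) = ρ ^ pairs n *
      distProd (fun i => root n i + (q : ℂ) * conj (root n i)) := distProd_smul ρ hρ.le _
  rw [h1]
  congr 1
  unfold distProd Wq
  rw [← Finset.prod_mul_distrib]
  refine Finset.prod_congr rfl fun i _ => ?_
  rw [← Finset.prod_mul_distrib]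
  refine Finset.prod_congr rfl fun j _ => ?_
  have hc : ∀ i : Fin n, root n i * conj (root n i) = 1 := by
    intro i
    rw [Complex.mul_conj, Complex.normSq_eq_norm_sq, norm_root]; simp
  have e : root n i + (q : ℂ) * conj (root n i) - (root n j + (q : ℂ) * conj (root n j)) =
      (root n i - root n j) * conj (1 - (q : ℂ) * root n i * root n j) := by
    simp only [map_sub, map_one, map_mul, Complex.conj_ofReal]
    linear_combination ((q : ℂ) * conj (root n j)) * hc i - ((q : ℂ) * conj (root n i)) * hc j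
  rw [e, norm_mul, Complex.norm_conj]

lemma fek_mem {ρ q : ℝ} (hρ : 0 < ρ) (hq0 : 0 ≤ q) (hq1 : q < 1) {n : ℕ} (i : Fin n) :
    fek ρ q n i ∈ EllC ρ q := by
  have h1 : (root n i).re ^ 2 + (root n i).im ^ 2 = 1 := by
    have := Complex.normSq_eq_norm_sq (root n i)
    rw [norm_root, Complex.normSq_apply] at this
    nlinarith
  have hre : (fek ρ q n i).re = ρ * (1 + q) * (root n i).re := by
    rw [fek, Complex.re_ofReal_mul, Complex.add_re, Complex.re_ofReal_mul, Complex.conj_re]; ring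
  have him : (fek ρ q n i).im = ρ * (1 - q) * (root n i).im := by
    rw [fek, Complex.im_ofReal_mul, Complex.add_im, Complex.im_ofReal_mul, Complex.conj_im]; ring
  have ha0 : ρ * (1 + q) ≠ 0 := by positivity
  have hb0 : ρ * (1 - q) ≠ 0 := (mul_pos hρ (by linarith)).ne'
  change ((fek ρ q n i).re / (ρ * (1 + q))) ^ 2 + ((fek ρ q n i).im / (ρ * (1 - q))) ^ 2 ≤ 1
  rw [hre, him, mul_div_cancel_left₀ _ ha0, mul_div_cancel_left₀ _ hb0, h1]

lemma isClosed_EllC (ρ q : ℝ) : IsClosed (EllC ρ q) := by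
  unfold EllC
  exact isClosed_le (by fun_prop) continuous_const

lemma isOpen_Ell (ρ q : ℝ) : IsOpen (Ell ρ q) := by
  unfold Ell
  exact isOpen_lt (by fun_prop) continuous_const

lemma closure_Ell_subset (ρ q : ℝ) : closure (Ell ρ q) ⊆ EllC ρ q :=
  closure_minimal (fun z hz => by
    have h : (z.re / (ρ * (1 + q))) ^ 2 + (z.im / (ρ * (1 - q))) ^ 2 < 1 := hz
    change (z.re / (ρ * (1 + q))) ^ 2 + (z.im / (ρ * (1 - q))) ^ 2 ≤ 1
    exact h.le) (isClosed_EllC ρ q)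

lemma EllC_subset_closure {ρ q : ℝ} : EllC ρ q ⊆ closure (Ell ρ q) := by
  intro z hz
  have h1 : Tendsto (fun s : ℝ => (s : ℂ) * z) (𝓝[<] 1) (𝓝 ((1 : ℝ) * z)) := by
    apply Tendsto.mono_left _ nhdsWithin_le_nhds
    exact (Continuous.tendsto (by fun_prop) (1 : ℝ))
  rw [Complex.ofReal_one, one_mul] at h1
  refine mem_closure_of_tendsto h1 ?_
  have h2 : ∀ᶠ s : ℝ in 𝓝[<] 1, 0 < s :=
    mem_nhdsWithin_of_mem_nhds (lt_mem_nhds one_pos)
  filter_upwards [self_mem_nhdsWithin, h2] with s hs hs0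
  have hs1 : s < 1 := hs
  change (((s : ℂ) * z).re / (ρ * (1 + q))) ^ 2 + (((s : ℂ) * z).im / (ρ * (1 - q))) ^ 2 < 1
  have hz' : (z.re / (ρ * (1 + q))) ^ 2 + (z.im / (ρ * (1 - q))) ^ 2 ≤ 1 := hz
  rw [Complex.re_ofReal_mul, Complex.im_ofReal_mul, mul_div_assoc, mul_div_assoc, mul_pow, mul_pow,
    ← mul_add]
  have h3 : s ^ 2 < 1 := by nlinarith
  calc s ^ 2 * ((z.re / (ρ * (1 + q))) ^ 2 + (z.im / (ρ * (1 - q))) ^ 2) ≤ s ^ 2 * 1 := by gcongr
    _ < 1 := by linarith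

lemma pairs_rpow {ρ : ℝ} (hρ : 0 < ρ) {n : ℕ} (hn : 1 < n) :
    (ρ ^ pairs n) ^ (2 / ((n : ℝ) * (n - 1))) = ρ := by
  have hn' : (1 : ℝ) < n := by exact_mod_cast hn
  rw [← Real.rpow_natCast, ← Real.rpow_mul hρ.le, pairs_eq]
  have : (n : ℝ) * (n - 1) / 2 * (2 / (n * (n - 1))) = 1 := by
    have : (n : ℝ) - 1 ≠ 0 := by linarith
    field_simp
  rw [this, Real.rpow_one]

lemma feketeDiam_ell_le {ρ q : ℝ} (hρ : 0 < ρ) (hq0 : 0 ≤ q) (hq1 : q < 1) {n : ℕ} (hn : 1 < n) :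
    feketeDiam (closure (Ell ρ q)) n ≤ ρ * ((n : ℝ) ^ ((1 : ℝ) / (n - 1))) ^ 4 ∧
    ρ * ((1 - q) / 2) ^ ((1 : ℝ) / (n - 1)) ≤ feketeDiam (closure (Ell ρ q)) n := by
  have hn' : (1 : ℝ) < n := by exact_mod_cast hn
  have hn0 : (0 : ℝ) < n := by linarith
  have hn1 : (n : ℝ) - 1 ≠ 0 := by linarith
  set S : Set ℝ := {P : ℝ | ∃ z : Fin n → ℂ, (∀ i, z i ∈ closure (Ell ρ q)) ∧
      P = ∏ i, ∏ j ∈ Finset.Ioi i, ‖z i - z j‖} with hS
  have hub : ∀ P ∈ S, P ≤ ((n : ℝ) ^ n * (n : ℝ) ^ n) * ρ ^ pairs n := by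
    rintro P ⟨z, hz, rfl⟩
    exact distProd_ell hρ hq0 hq1 z fun i => closure_Ell_subset ρ q (hz i)
  have hmem : distProd (fek ρ q n) ∈ S :=
    ⟨fek ρ q n, fun i => EllC_subset_closure (fek_mem hρ hq0 hq1 i), rfl⟩
  have h1 : sSup S ≤ ((n : ℝ) ^ n * (n : ℝ) ^ n) * ρ ^ pairs n := csSup_le ⟨_, hmem⟩ hub
  have h2 : distProd (fek ρ q n) ≤ sSup S := le_csSup ⟨_, hub⟩ hmem
  have hS0 : 0 ≤ sSup S := (distProd_nonneg _).trans h2
  have he : (0 : ℝ) ≤ 2 / ((n : ℝ) * (n - 1)) := by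
    apply div_nonneg (by norm_num)
    exact mul_nonneg hn0.le (by linarith)
  constructor
  · calc feketeDiam (closure (Ell ρ q)) n = (sSup S) ^ (2 / ((n : ℝ) * (n - 1))) := rfl
      _ ≤ (((n : ℝ) ^ n * (n : ℝ) ^ n) * ρ ^ pairs n) ^ (2 / ((n : ℝ) * (n - 1))) :=
          Real.rpow_le_rpow hS0 h1 he
      _ = ρ * ((n : ℝ) ^ ((1 : ℝ) / (n - 1))) ^ 4 := by
          rw [Real.mul_rpow (by positivity) (by positivity), pairs_rpow hρ hn, mul_comm]
          congr 1
          rw [← pow_add, ← Real.rpow_natCast, ← Real.rpow_natCast, ← Real.rpow_mul hn0.le,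
            ← Real.rpow_mul hn0.le]
          congr 1
          push_cast
          field_simp
          ring
  · have hlow : (ρ ^ pairs n) * Real.sqrt (((1 - q) / 2) ^ n) ≤ distProd (fek ρ q n) := by
      rw [distProd_fek hρ]
      have h3 : Real.sqrt (((1 - q) / 2) ^ n) ≤ Wq n q := by
        rw [Real.sqrt_le_left (Wq_nonneg n q)]
        exact Wq_lower (by omega) hq0 hq1
      have h4 : 1 ≤ distProd (root n) := by
        have h5 := distProd_root hn
        have h6 : (1 : ℝ) ≤ (n : ℝ) ^ n := one_le_pow₀ hn'.le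
        nlinarith [distProd_nonneg (root n)]
      have h7 : Wq n q ≤ distProd (root n) * Wq n q := by
        nlinarith [Wq_nonneg n q]
      exact mul_le_mul_of_nonneg_left (h3.trans h7) (by positivity)
    have hq2 : 0 < (1 - q) / 2 := by linarith
    calc ρ * ((1 - q) / 2) ^ ((1 : ℝ) / (n - 1))
        = ((ρ ^ pairs n) * Real.sqrt (((1 - q) / 2) ^ n)) ^ (2 / ((n : ℝ) * (n - 1))) := by
          rw [Real.mul_rpow (by positivity) (Real.sqrt_nonneg _), pairs_rpow hρ hn]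
          congr 1
          rw [Real.sqrt_eq_rpow, ← Real.rpow_natCast, ← Real.rpow_mul hq2.le,
            ← Real.rpow_mul hq2.le]
          congr 1
          field_simp
      _ ≤ (sSup S) ^ (2 / ((n : ℝ) * (n - 1))) :=
          Real.rpow_le_rpow (by positivity) (hlow.trans h2) he
      _ = feketeDiam (closure (Ell ρ q)) n := rfl

/-- The transfinite diameter of an ellipse. -/
theorem hasTransfiniteDiameter_Ell {ρ q : ℝ} (hρ : 0 < ρ) (hq0 : 0 ≤ q) (hq1 : q < 1) :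
    HasTransfiniteDiameter (Ell ρ q) ρ := by
  have h4 := tendsto_rpow_div_mul_add 1 1 (-1) (by norm_num)
  have h5 : Tendsto (fun n : ℕ => (n : ℝ) ^ ((1 : ℝ) / (n - 1))) atTop (𝓝 1) := by
    refine (h4.comp (tendsto_natCast_atTop_atTop (R := ℝ))).congr fun n => ?_
    simp only [Function.comp_apply, one_mul]
    rfl
  have h6 : Tendsto (fun n : ℕ => ρ * ((n : ℝ) ^ ((1 : ℝ) / (n - 1))) ^ 4) atTop (𝓝 ρ) := by
    have := (h5.pow 4).const_mul ρ
    simpa using this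
  have h7 : Tendsto (fun n : ℕ => (1 : ℝ) / (n - 1)) atTop (𝓝 0) := by
    have h8 : Tendsto (fun n : ℕ => (n : ℝ) - 1) atTop atTop :=
      tendsto_atTop_add_const_right _ _ tendsto_natCast_atTop_atTop
    have := h8.inv_tendsto_atTop
    refine this.congr fun n => ?_
    simp
  have h9 : Tendsto (fun n : ℕ => ρ * ((1 - q) / 2) ^ ((1 : ℝ) / (n - 1))) atTop (𝓝 ρ) := by
    have hq2 : 0 < (1 - q) / 2 := by linarith
    have h10 : Tendsto (fun n : ℕ => ((1 - q) / 2) ^ ((1 : ℝ) / (n - 1))) atTop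
        (𝓝 (((1 - q) / 2) ^ (0 : ℝ))) :=
      (Real.continuous_const_rpow hq2.ne').continuousAt.tendsto.comp h7
    rw [Real.rpow_zero] at h10
    simpa using h10.const_mul ρ
  refine tendsto_of_tendsto_of_tendsto_of_le_of_le' h9 h6 ?_ ?_
  · filter_upwards [eventually_gt_atTop 1] with n hn
    exact (feketeDiam_ell_le hρ hq0 hq1 hn).2
  · filter_upwards [eventually_gt_atTop 1] with n hn
    exact (feketeDiam_ell_le hρ hq0 hq1 hn).1

end Pool.Agent.Helper19_LogPot
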