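import Pool.Agent.Helper19_LogPot.Ellipse2

/-!
Thin ellipses are convex bounded domains with small eigenvalues only.
-/

set_option autoImplicit false

open Filter Topology MeasureTheory Set
open scoped ENNReal ComplexConjugate

namespace Pool.Agent.Helper19_LogPot

lemma mem_Ell {ρ q : ℝ} {z : ℂ} :
    z ∈ Ell ρ q ↔ (z.re / (ρ * (1 + q))) ^ 2 + (z.im / (ρ * (1 - q))) ^ 2 < 1 := Iff.rfl

lemma convex_Ell (ρ q : ℝ) : Convex ℝ (Ell ρ q) := by
  intro x hx y hy a b ha hb hab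
  rw [mem_Ell] at hx hy ⊢
  have e1 : (a • x + b • y).re / (ρ * (1 + q)) =
      a * (x.re / (ρ * (1 + q))) + b * (y.re / (ρ * (1 + q))) := by
    simp only [Complex.add_re, Complex.real_smul, Complex.re_ofReal_mul]; ring
  have e2 : (a • x + b • y).im / (ρ * (1 - q)) =
      a * (x.im / (ρ * (1 - q))) + b * (y.im / (ρ * (1 - q))) := by
    simp only [Complex.add_im, Complex.real_smul, Complex.im_ofReal_mul]; ring
  rw [e1, e2]
  generalize x.re / (ρ * (1 + q)) = u at *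
  generalize x.im / (ρ * (1 - q)) = v at *
  generalize y.re / (ρ * (1 + q)) = u' at *
  generalize y.im / (ρ * (1 - q)) = v' at *
  have h1 : (a * u + b * u') ^ 2 ≤ a * u ^ 2 + b * u' ^ 2 := by
    have : a * u ^ 2 + b * u' ^ 2 - (a * u + b * u') ^ 2 = a * b * (u - u') ^ 2 := by
      have hb' : b = 1 - a := by linarith
      rw [hb']; ring
    nlinarith [mul_nonneg (mul_nonneg ha hb) (sq_nonneg (u - u'))]
  have h2 : (a * v + b * v') ^ 2 ≤ a * v ^ 2 + b * v' ^ 2 := by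
    have : a * v ^ 2 + b * v' ^ 2 - (a * v + b * v') ^ 2 = a * b * (v - v') ^ 2 := by
      have hb' : b = 1 - a := by linarith
      rw [hb']; ring
    nlinarith [mul_nonneg (mul_nonneg ha hb) (sq_nonneg (v - v'))]
  rcases ha.eq_or_lt with h0 | h0
  · have hb1 : b = 1 := by linarith
    subst hb1
    rw [← h0] at h1 h2 ⊢
    nlinarith
  · nlinarith

lemma Ell_subset_ball {ρ q : ℝ} (hρ : 0 < ρ) (hq0 : 0 ≤ q) (hq1 : q < 1) :
    Ell ρ q ⊆ Metric.ball 0 (2 * ρ) := by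
  intro z hz
  rw [mem_Ell] at hz
  rw [mem_ball_zero_iff]
  have ha0 : 0 < ρ * (1 + q) := by positivity
  have hb0 : 0 < ρ * (1 - q) := mul_pos hρ (by linarith)
  have hba : ρ * (1 - q) ≤ ρ * (1 + q) := by nlinarith
  have hne : (1 - q) ≠ 0 := by linarith
  have h1 : z.re ^ 2 = (ρ * (1 + q)) ^ 2 * (z.re / (ρ * (1 + q))) ^ 2 := by field_simp
  have h2 : z.im ^ 2 = (ρ * (1 - q)) ^ 2 * (z.im / (ρ * (1 - q))) ^ 2 := by field_simp
  have h3 : (ρ * (1 - q)) ^ 2 ≤ (ρ * (1 + q)) ^ 2 := pow_le_pow_left₀ hb0.le hba 2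
  have h4 : ‖z‖ ^ 2 = z.re ^ 2 + z.im ^ 2 := by
    rw [← Complex.normSq_eq_norm_sq, Complex.normSq_apply]; ring
  have h5 : ‖z‖ ^ 2 < (ρ * (1 + q)) ^ 2 := by
    rw [h4, h1, h2]
    have h6 : (ρ * (1 - q)) ^ 2 * (z.im / (ρ * (1 - q))) ^ 2 ≤
        (ρ * (1 + q)) ^ 2 * (z.im / (ρ * (1 - q))) ^ 2 := by gcongr
    have h7 : 0 < (ρ * (1 + q)) ^ 2 := by positivity
    nlinarith
  have h8 : ‖z‖ < ρ * (1 + q) := lt_of_pow_lt_pow_left₀ 2 ha0.le h5
  nlinarith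

lemma isBoundedDomain_Ell {ρ q : ℝ} (hρ : 0 < ρ) (hq0 : 0 ≤ q) (hq1 : q < 1) :
    IsBoundedDomain (Ell ρ q) := by
  refine ⟨isOpen_Ell ρ q, ⟨⟨0, ?_⟩, (convex_Ell ρ q).isPreconnected⟩,
    Metric.isBounded_ball.subset (Ell_subset_ball hρ hq0 hq1)⟩
  rw [mem_Ell]; simp

lemma volume_Ell_le {ρ q : ℝ} (hρ : 0 < ρ) (hq0 : 0 ≤ q) (hq1 : q < 1) :
    volume (Ell ρ q) ≤ ENNReal.ofReal (8 * ρ ^ 2 * (1 - q)) := by
  have ha0 : 0 < ρ * (1 + q) := by positivity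
  have hb0 : 0 < ρ * (1 - q) := mul_pos hρ (by linarith)
  have h1 : Ell ρ q ⊆ Complex.measurableEquivRealProd ⁻¹'
      (Ioo (-(ρ * (1 + q))) (ρ * (1 + q)) ×ˢ Ioo (-(ρ * (1 - q))) (ρ * (1 - q))) := by
    intro z hz
    rw [mem_Ell] at hz
    have h2 : (z.re / (ρ * (1 + q))) ^ 2 < 1 := by nlinarith [sq_nonneg (z.im / (ρ * (1 - q)))]
    have h3 : (z.im / (ρ * (1 - q))) ^ 2 < 1 := by nlinarith [sq_nonneg (z.re / (ρ * (1 + q)))]
    rw [sq_lt_one_iff_abs_lt_one, abs_div, abs_of_pos ha0, div_lt_one ha0, abs_lt] at h2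
    rw [sq_lt_one_iff_abs_lt_one, abs_div, abs_of_pos hb0, div_lt_one hb0, abs_lt] at h3
    exact ⟨⟨h2.1, h2.2⟩, ⟨h3.1, h3.2⟩⟩
  refine (measure_mono h1).trans ?_
  rw [Complex.volume_preserving_equiv_real_prod.measure_preimage
    (measurableSet_Ioo.prod measurableSet_Ioo).nullMeasurableSet]
  rw [Measure.volume_eq_prod, Measure.prod_prod, Real.volume_Ioo, Real.volume_Ioo,
    ← ENNReal.ofReal_mul (by linarith)]
  apply ENNReal.ofReal_le_ofReal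
  have : 0 ≤ ρ ^ 2 * (1 - q) := mul_nonneg (by positivity) (by linarith)
  nlinarith

/-- thin ellipses have only small eigenvalues -/
lemma exists_thin_ell {R t : ℝ} (hR : 0 < R) (ht : t < 0) : ∃ q₀ : ℝ, 0 ≤ q₀ ∧ q₀ < 1 ∧
    ∀ q : ℝ, q₀ < q → q < 1 → ∃ b : ℝ, t < b ∧ b ≤ 0 ∧
      ∀ s, IsLogEigenvalue (Ell R q) s → b ≤ s := by
  set c : ℝ := (CK (2 * (2 * R))).toReal with hc
  have hc0 : 0 ≤ c := ENNReal.toReal_nonneg
  have hCK : CK (2 * (2 * R)) = ENNReal.ofReal c := (ENNReal.ofReal_toReal (CK_lt_top _).ne).symm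
  have ht2 : 0 < t ^ 2 := by nlinarith
  refine ⟨max 0 (1 - t ^ 2 / (8 * R ^ 2 * (c + 1))), le_max_left _ _, ?_, ?_⟩
  · apply max_lt one_pos
    have : 0 < t ^ 2 / (8 * R ^ 2 * (c + 1)) := by positivity
    linarith
  intro q hq hq1
  have hq0 : 0 ≤ q := (le_max_left _ _).trans hq.le
  have hq2 : 1 - t ^ 2 / (8 * R ^ 2 * (c + 1)) < q := (le_max_right _ _).trans_lt hq
  have hq3 : (1 - q) * (8 * R ^ 2 * (c + 1)) < t ^ 2 := by
    rw [← lt_div_iff₀ (by positivity)]; linarith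
  have hpos : 0 ≤ 8 * R ^ 2 * (1 - q) := mul_nonneg (by positivity) (by linarith)
  refine ⟨-Real.sqrt (8 * R ^ 2 * (1 - q) * c), ?_, ?_, ?_⟩
  · have h1 : Real.sqrt (8 * R ^ 2 * (1 - q) * c) < -t := by
      rw [Real.sqrt_lt' (by linarith)]
      nlinarith
    linarith
  · simp [Real.sqrt_nonneg]
  · intro s hs
    have hb := eigenvalue_bound (isOpen_Ell R q).measurableSet (Ell_subset_ball hR hq0 hq1) hs
    have h2 : ENNReal.ofReal (s ^ 2) ≤ ENNReal.ofReal (8 * R ^ 2 * (1 - q) * c) := by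
      calc ENNReal.ofReal (s ^ 2) ≤ volume (Ell R q) * CK (2 * (2 * R)) := hb
        _ ≤ ENNReal.ofReal (8 * R ^ 2 * (1 - q)) * ENNReal.ofReal c := by
            rw [← hCK]; gcongr; exact volume_Ell_le hR hq0 hq1
        _ = ENNReal.ofReal (8 * R ^ 2 * (1 - q) * c) := by
            rw [← ENNReal.ofReal_mul hpos]
    rw [ENNReal.ofReal_le_ofReal_iff (by positivity)] at h2
    exact (abs_le.mp (Real.abs_le_sqrt h2)).1

end Pool.Agent.Helper19_LogPot
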