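import Pool.Agent.Helper19_LogPot.Defs

/-!
Integrability of the logarithmic kernel, and the bound `t ^ 2 ≤ |Ω| C` for eigenvalues.
-/

open MeasureTheory Set
open scoped ENNReal Real

namespace Pool.Agent.Helper19_LogPot

lemma lintegral_inv_norm_ball (ρ : ℝ) :
    ∫⁻ z in Metric.ball (0 : ℂ) ρ, ENNReal.ofReal ‖z‖⁻¹ < ∞ := by
  rw [← lintegral_indicator Metric.isOpen_ball.measurableSet, ← Complex.lintegral_comp_polarCoord_symm]
  have hle : ∀ p ∈ polarCoord.target, ENNReal.ofReal p.1 •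
      (Metric.ball (0 : ℂ) ρ).indicator (fun z => ENNReal.ofReal ‖z‖⁻¹) (Complex.polarCoord.symm p)
      ≤ (Ioo 0 ρ ×ˢ Ioo (-π) π).indicator (fun _ : ℝ × ℝ => (1 : ℝ≥0∞)) p := by
    rintro ⟨r, θ⟩ hp
    rw [polarCoord_target] at hp
    obtain ⟨hr, hθ⟩ := hp
    simp only [mem_Ioi] at hr hθ
    have hnorm : ‖Complex.polarCoord.symm (r, θ)‖ = r := by
      rw [Complex.norm_polarCoord_symm]; exact abs_of_pos hr
    by_cases hb : r < ρ
    · rw [indicator_of_mem (by rw [mem_ball_zero_iff, hnorm]; exact hb), hnorm, smul_eq_mul,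
        ← ENNReal.ofReal_mul hr.le, mul_inv_cancel₀ hr.ne', ENNReal.ofReal_one,
        indicator_of_mem (show (r, θ) ∈ Ioo 0 ρ ×ˢ Ioo (-π) π from ⟨⟨hr, hb⟩, hθ⟩)]
    · rw [indicator_of_notMem (by rw [mem_ball_zero_iff, hnorm]; exact hb)]
      simp
  calc _ ≤ ∫⁻ p in polarCoord.target, (Ioo 0 ρ ×ˢ Ioo (-π) π).indicator (fun _ : ℝ × ℝ => (1 : ℝ≥0∞)) p :=
        setLIntegral_mono' polarCoord.open_target.measurableSet hle
    _ ≤ ∫⁻ p, (Ioo 0 ρ ×ˢ Ioo (-π) π).indicator (fun _ : ℝ × ℝ => (1 : ℝ≥0∞)) p :=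
        setLIntegral_le_lintegral _ _
    _ = volume (Ioo 0 ρ ×ˢ Ioo (-π) π) := by
        rw [lintegral_indicator (measurableSet_Ioo.prod measurableSet_Ioo)]
        simp
    _ < ∞ := by
        rw [Measure.volume_eq_prod, Measure.prod_prod]
        exact ENNReal.mul_lt_top (by simp) (by simp)

lemma integrableOn_inv_norm (ρ : ℝ) : IntegrableOn (fun z : ℂ => ‖z‖⁻¹) (Metric.ball 0 ρ) := by
  refine ⟨(by fun_prop : Measurable fun z : ℂ => ‖z‖⁻¹).aestronglyMeasurable, ?_⟩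
  rw [hasFiniteIntegral_iff_ofReal (Filter.Eventually.of_forall fun z => by positivity)]
  exact lintegral_inv_norm_ball ρ

/-- majorant of `log²` -/
noncomputable def K (z : ℂ) : ℝ := 4 * (‖z‖⁻¹ + 2 + ‖z‖)

lemma K_nonneg (z : ℂ) : 0 ≤ K z := by unfold K; positivity

lemma log_sq_le_K (z : ℂ) : Real.log ‖z‖ ^ 2 ≤ K z := by
  rcases eq_or_ne z 0 with rfl | hz
  · simp [K]
  · have h0 : 0 < ‖z‖ := norm_pos_iff.mpr hz
    set s := Real.sqrt ‖z‖ with hs
    have hs0 : 0 < s := Real.sqrt_pos.mpr h0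
    have hss : s ^ 2 = ‖z‖ := Real.sq_sqrt h0.le
    have hlog : Real.log ‖z‖ = 2 * Real.log s := by
      rw [← hss, Real.log_pow]; norm_num
    have h1 : Real.log s ≤ s + s⁻¹ := by
      have := Real.log_le_sub_one_of_pos hs0
      have : 0 < s⁻¹ := by positivity
      linarith
    have h2 : -Real.log s ≤ s + s⁻¹ := by
      have h3 := Real.log_le_sub_one_of_pos (inv_pos.mpr hs0)
      rw [Real.log_inv] at h3
      linarith
    have h4 : Real.log s ^ 2 ≤ (s + s⁻¹) ^ 2 := by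
      apply sq_le_sq'
      · linarith
      · exact h1
    have h5 : (s + s⁻¹) ^ 2 = ‖z‖⁻¹ + 2 + ‖z‖ := by
      rw [← hss]
      field_simp
      ring
    rw [hlog, K, ← h5]
    linarith [h4]

lemma abs_log_le_K (z : ℂ) : |Real.log ‖z‖| ≤ K z := by
  have h1 := log_sq_le_K z
  have h2 : (1 : ℝ) ≤ K z := by
    unfold K
    have : 0 ≤ ‖z‖⁻¹ := by positivity
    have := norm_nonneg z
    linarith
  by_contra h
  push Not at h
  have : K z * K z < |Real.log ‖z‖| * |Real.log ‖z‖| := by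
    apply mul_self_lt_mul_self (K_nonneg z) h
  rw [abs_mul_abs_self, ← sq] at this
  nlinarith

lemma measurable_K : Measurable K := by unfold K; fun_prop

lemma integrableOn_K (ρ : ℝ) : IntegrableOn K (Metric.ball 0 ρ) := by
  unfold K
  have h1 := integrableOn_inv_norm ρ
  have hfin : volume (Metric.ball (0 : ℂ) ρ) ≠ ∞ := measure_ball_lt_top.ne
  have h2 : IntegrableOn (fun _ : ℂ => (2 : ℝ)) (Metric.ball 0 ρ) := integrableOn_const hfin
  have h3 : IntegrableOn (fun z : ℂ => ‖z‖) (Metric.ball 0 ρ) := by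
    have : IntegrableOn (fun z : ℂ => ‖z‖) (Metric.closedBall 0 ρ) :=
      continuous_norm.continuousOn.integrableOn_compact (isCompact_closedBall _ _)
    exact this.mono_set Metric.ball_subset_closedBall
  exact ((h1.add h2).add h3).const_mul 4

/-- the constant -/
noncomputable def CK (ρ : ℝ) : ℝ≥0∞ := ∫⁻ z in Metric.ball (0 : ℂ) ρ, ENNReal.ofReal (K z)

lemma CK_lt_top (ρ : ℝ) : CK ρ < ∞ := by
  have h := (integrableOn_K ρ).2
  rw [hasFiniteIntegral_iff_ofReal (Filter.Eventually.of_forall K_nonneg)] at h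
  exact h

/-- translated kernel bounds -/
lemma lintegral_K_sub_le {R : ℝ} {Ω : Set ℂ} (hΩ : Ω ⊆ Metric.ball 0 R) {x : ℂ} (hx : x ∈ Metric.ball (0 : ℂ) R) :
    ∫⁻ y in Ω, ENNReal.ofReal (K (x - y)) ≤ CK (2 * R) := by
  calc ∫⁻ y in Ω, ENNReal.ofReal (K (x - y))
      ≤ ∫⁻ y in Metric.ball (0 : ℂ) R, ENNReal.ofReal (K (x - y)) := lintegral_mono_set hΩ
    _ = ∫⁻ y, (Metric.ball (0 : ℂ) R).indicator (fun y => ENNReal.ofReal (K (x - y))) y :=
        (lintegral_indicator Metric.isOpen_ball.measurableSet _).symm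
    _ ≤ ∫⁻ y, (Metric.ball (0 : ℂ) (2 * R)).indicator (fun z => ENNReal.ofReal (K z)) (x - y) := by
        refine lintegral_mono fun y => ?_
        by_cases hy : y ∈ Metric.ball (0 : ℂ) R
        · rw [indicator_of_mem hy, indicator_of_mem]
          rw [mem_ball_zero_iff] at hx hy ⊢
          calc ‖x - y‖ ≤ ‖x‖ + ‖y‖ := norm_sub_le _ _
            _ < 2 * R := by linarith
        · rw [indicator_of_notMem hy]; exact bot_le
    _ = ∫⁻ z, (Metric.ball (0 : ℂ) (2 * R)).indicator (fun z => ENNReal.ofReal (K z)) z :=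
        lintegral_sub_left_eq_self _ x
    _ = CK (2 * R) := by
        rw [lintegral_indicator Metric.isOpen_ball.measurableSet, CK]

lemma integrableOn_log_sub {R : ℝ} {x : ℂ} (hx : x ∈ Metric.ball (0 : ℂ) R) :
    IntegrableOn (fun y : ℂ => Real.log ‖x - y‖) (Metric.ball 0 R) := by
  have h1 : IntegrableOn (fun y : ℂ => K (x - y)) (Metric.ball 0 R) := by
    refine ⟨(measurable_K.comp (measurable_const.sub measurable_id)).aestronglyMeasurable, ?_⟩
    rw [hasFiniteIntegral_iff_ofReal (Filter.Eventually.of_forall fun y => K_nonneg _)]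
    exact lt_of_le_of_lt (lintegral_K_sub_le subset_rfl hx) (CK_lt_top _)
  refine Integrable.mono' h1 ?_ (Filter.Eventually.of_forall fun y => abs_log_le_K _)
  exact (Real.measurable_log.comp (by fun_prop)).aestronglyMeasurable

/-- Every eigenvalue satisfies `t² ≤ |Ω| C(R)` for `Ω ⊆ B(0,R)`. -/
lemma eigenvalue_bound {R : ℝ} {Ω : Set ℂ} (hΩm : MeasurableSet Ω) (hΩ : Ω ⊆ Metric.ball 0 R) {t : ℝ}
    (ht : IsLogEigenvalue Ω t) : ENNReal.ofReal (t ^ 2) ≤ volume Ω * CK (2 * R) := by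
  obtain ⟨u, hu, hu0, hL⟩ := ht
  set U : ℝ≥0∞ := ∫⁻ y in Ω, ‖u y‖ₑ ^ (2 : ℝ) with hU
  have hUtop : U < ∞ := by
    have h := hu.2
    rw [eLpNorm_lt_top_iff_lintegral_rpow_enorm_lt_top (by norm_num) (by norm_num)] at h
    rw [show (2 : ℝ≥0∞).toReal = (2 : ℝ) by norm_num] at h
    exact h
  have hUpos : U ≠ 0 := by
    intro h
    rw [hU, lintegral_eq_zero_iff' ((hu.1.enorm).pow_const _)] at h
    apply hu0
    filter_upwards [h] with y hy
    simpa using hy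
  have hpt : ∀ᵐ x ∂(volume.restrict Ω), ‖t * u x‖ₑ ^ (2 : ℝ) ≤ CK (2 * R) * U := by
    have hmem : ∀ᵐ x ∂(volume.restrict Ω), x ∈ Ω := ae_restrict_mem hΩm
    filter_upwards [hL, hmem] with x hx hxΩ
    rw [← hx]
    have h1 : ‖∫ y in Ω, Real.log (1 / ‖x - y‖) * u y‖ₑ
        ≤ ∫⁻ y in Ω, ‖Real.log (1 / ‖x - y‖)‖ₑ * ‖u y‖ₑ := by
      refine (enorm_integral_le_lintegral_enorm _).trans ?_
      exact le_of_eq (by simp_rw [enorm_mul])
    have hmeas : AEMeasurable (fun y : ℂ => ‖Real.log (1 / ‖x - y‖)‖ₑ) (volume.restrict Ω) := by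
      apply Measurable.aemeasurable
      apply Measurable.enorm
      exact Real.measurable_log.comp (by fun_prop)
    have h2 := ENNReal.lintegral_mul_le_Lp_mul_Lq (volume.restrict Ω) Real.HolderConjugate.two_two
      hmeas hu.1.enorm
    have h3 : ∫⁻ y in Ω, ‖Real.log (1 / ‖x - y‖)‖ₑ ^ (2 : ℝ) ≤ CK (2 * R) := by
      refine le_trans (lintegral_mono fun y => ?_) (lintegral_K_sub_le hΩ (hΩ hxΩ))
      rw [one_div, Real.log_inv, enorm_neg, Real.enorm_eq_ofReal_abs,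
        ENNReal.ofReal_rpow_of_nonneg (abs_nonneg _) (by norm_num)]
      apply ENNReal.ofReal_le_ofReal
      rw [Real.rpow_two, sq_abs]
      exact log_sq_le_K _
    calc ‖∫ y in Ω, Real.log (1 / ‖x - y‖) * u y‖ₑ ^ (2 : ℝ)
        ≤ ((∫⁻ y in Ω, ‖Real.log (1 / ‖x - y‖)‖ₑ ^ (2 : ℝ)) ^ (1 / (2 : ℝ)) * U ^ (1 / (2 : ℝ))) ^ (2 : ℝ) := by
          exact ENNReal.rpow_le_rpow (h1.trans h2) (by norm_num)
      _ = (∫⁻ y in Ω, ‖Real.log (1 / ‖x - y‖)‖ₑ ^ (2 : ℝ)) * U := by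
          rw [ENNReal.mul_rpow_of_nonneg _ _ (by norm_num), ← ENNReal.rpow_mul, ← ENNReal.rpow_mul]
          norm_num
      _ ≤ CK (2 * R) * U := by gcongr
  have hint : ∫⁻ x in Ω, ‖t * u x‖ₑ ^ (2 : ℝ) ≤ volume Ω * CK (2 * R) * U := by
    calc ∫⁻ x in Ω, ‖t * u x‖ₑ ^ (2 : ℝ) ≤ ∫⁻ _ in Ω, CK (2 * R) * U := lintegral_mono_ae hpt
      _ = volume Ω * CK (2 * R) * U := by
        rw [setLIntegral_const]; ring
  have heq : ∫⁻ x in Ω, ‖t * u x‖ₑ ^ (2 : ℝ) = ENNReal.ofReal (t ^ 2) * U := by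
    rw [hU, ← lintegral_const_mul' _ _ ENNReal.ofReal_ne_top]
    refine lintegral_congr fun x => ?_
    rw [enorm_mul, ENNReal.mul_rpow_of_nonneg _ _ (by norm_num), Real.enorm_eq_ofReal_abs t,
      ENNReal.ofReal_rpow_of_nonneg (abs_nonneg _) (by norm_num), Real.rpow_two, sq_abs]
  rw [heq] at hint
  exact (ENNReal.mul_le_mul_iff_left hUpos hUtop.ne).mp hint

end Pool.Agent.Helper19_LogPot
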