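import Pool.Agent.Helper19_LogPot.LogInt
import Pool.Agent.Helper19_LogPot.Bessel

/-!
The logarithmic potential of the radial function `I(a |y|^2 / R^2)` on the disc of radius `R`.
-/

open MeasureTheory Set Filter
open scoped ENNReal Real Topology

namespace Pool.Agent.Helper19_LogPot

lemma polar_mem_ball {R : ℝ} {p : ℝ × ℝ} (hp : p ∈ polarCoord.target) :
    Complex.polarCoord.symm p ∈ Metric.ball (0 : ℂ) R ↔ p ∈ Ioo 0 R ×ˢ Ioo (-π) π := by
  rw [polarCoord_target] at hp
  obtain ⟨h1, h2⟩ := hp
  rw [mem_ball_zero_iff, Complex.norm_polarCoord_symm, abs_of_pos h1]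
  constructor
  · intro h; exact ⟨⟨h1, h⟩, h2⟩
  · intro h; exact h.1.2

lemma prod_subset_target (R : ℝ) : Ioo 0 R ×ˢ Ioo (-π) π ⊆ polarCoord.target := by
  rw [polarCoord_target]
  exact prod_mono (fun x hx => hx.1) subset_rfl

lemma integrableOn_polar {R : ℝ} {f : ℂ → ℝ} (hf : Measurable f)
    (hfi : IntegrableOn f (Metric.ball 0 R)) :
    IntegrableOn (fun p : ℝ × ℝ => p.1 * f (Complex.polarCoord.symm p)) (Ioo 0 R ×ˢ Ioo (-π) π) := by
  have hpol : Measurable fun p : ℝ × ℝ => Complex.polarCoord.symm p := by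
    simp only [Complex.polarCoord_symm_apply]
    fun_prop
  refine ⟨(measurable_fst.mul (hf.comp hpol)).aestronglyMeasurable, ?_⟩
  have h1 : ∫⁻ p in polarCoord.target, ENNReal.ofReal p.1 •
      (Metric.ball (0 : ℂ) R).indicator (fun z => ‖f z‖ₑ) (Complex.polarCoord.symm p) < ∞ := by
    rw [Complex.lintegral_comp_polarCoord_symm, lintegral_indicator Metric.isOpen_ball.measurableSet]
    exact hfi.2
  refine lt_of_le_of_lt ?_ h1
  refine le_trans ?_ (lintegral_mono_set (prod_subset_target R))
  refine setLIntegral_mono' (measurableSet_Ioo.prod measurableSet_Ioo) fun p hp => ?_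
  have hpt := prod_subset_target R hp
  rw [indicator_of_mem ((polar_mem_ball hpt).mpr hp), enorm_mul, smul_eq_mul,
    Real.enorm_of_nonneg hp.1.1.le]

lemma integral_ball_eq_polar {R : ℝ} {f : ℂ → ℝ} (hf : Measurable f)
    (hfi : IntegrableOn f (Metric.ball 0 R)) :
    ∫ z in Metric.ball (0 : ℂ) R, f z =
      ∫ r in Ioo 0 R, ∫ θ in Ioo (-π) π, r * f (Complex.polarCoord.symm (r, θ)) := by
  rw [← integral_indicator Metric.isOpen_ball.measurableSet, ← Complex.integral_comp_polarCoord_symm]
  have h1 : ∫ p in polarCoord.target, p.1 •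
      (Metric.ball (0 : ℂ) R).indicator f (Complex.polarCoord.symm p) =
      ∫ p in polarCoord.target, (Ioo 0 R ×ˢ Ioo (-π) π).indicator
        (fun p : ℝ × ℝ => p.1 * f (Complex.polarCoord.symm p)) p := by
    refine setIntegral_congr_fun polarCoord.open_target.measurableSet fun p hp => ?_
    by_cases h : p ∈ Ioo 0 R ×ˢ Ioo (-π) π
    · simp only [indicator_of_mem h, indicator_of_mem ((polar_mem_ball hp).mpr h), smul_eq_mul]
    · have h' : Complex.polarCoord.symm p ∉ Metric.ball (0 : ℂ) R := fun h2 => h ((polar_mem_ball hp).mp h2)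
      simp only [indicator_of_notMem h, indicator_of_notMem h', smul_zero]
  rw [h1, setIntegral_indicator (measurableSet_Ioo.prod measurableSet_Ioo),
    inter_eq_self_of_subset_right (prod_subset_target R), Measure.volume_eq_prod,
    setIntegral_prod]
  rw [← Measure.volume_eq_prod]
  exact integrableOn_polar hf hfi

lemma integral_log_circle {x : ℂ} (hx : x ≠ 0) {r : ℝ} (hr : 0 < r) :
    ∫ θ in Ioo (-π) π, Real.log ‖x - Complex.polarCoord.symm (r, θ)‖ =
      2 * π * Real.log (max r ‖x‖) := by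
  have h0 : ∀ θ : ℝ, Complex.polarCoord.symm (r, θ) = circleMap 0 r θ := by
    intro θ
    rw [Complex.polarCoord_symm_apply, circleMap, zero_add, Complex.exp_mul_I]
    simp
  have h1 : ∫ θ in Ioo (-π) π, Real.log ‖x - Complex.polarCoord.symm (r, θ)‖
      = ∫ θ in (-π)..π, Real.log ‖circleMap 0 r θ - x‖ := by
    rw [intervalIntegral.integral_of_le (by linarith [Real.pi_pos]), integral_Ioc_eq_integral_Ioo]
    refine setIntegral_congr_fun measurableSet_Ioo fun θ _ => ?_
    simp only [h0, norm_sub_rev]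
  have hper : Function.Periodic (fun θ : ℝ => Real.log ‖circleMap 0 r θ - x‖) (2 * π) := by
    intro θ
    simp only [periodic_circleMap 0 r θ]
  have h2 : ∫ θ in (-π)..π, Real.log ‖circleMap 0 r θ - x‖
      = ∫ θ in (0 : ℝ)..(2 * π), Real.log ‖circleMap 0 r θ - x‖ := by
    have := hper.intervalIntegral_add_eq (-π) 0
    rw [zero_add, show -π + 2 * π = π by ring] at this
    exact this
  have h3 := circleAverage_log_norm_sub_const_eq_log_radius_add_posLog (a := x) (c := 0) hr.ne'
  rw [Real.circleAverage_def, smul_eq_mul] at h3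
  have hpi : (2 * π) ≠ 0 := by positivity
  have h4 : ∫ θ in (0 : ℝ)..(2 * π), Real.log ‖circleMap 0 r θ - x‖
      = 2 * π * (Real.log r + Real.posLog (r⁻¹ * ‖0 - x‖)) := by
    rw [← h3]
    field_simp
  rw [h1, h2, h4, zero_sub, norm_neg]
  congr 1
  have hxn : 0 < ‖x‖ := norm_pos_iff.mpr hx
  rcases le_total r ‖x‖ with h | h
  · rw [max_eq_right h, Real.posLog_eq_log, Real.log_mul (by positivity) hxn.ne', Real.log_inv]
    · ring
    · rw [abs_of_nonneg (by positivity), ← div_eq_inv_mul, one_le_div hr]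
      exact h
  · rw [max_eq_left h, (Real.posLog_eq_zero_iff _).mpr, add_zero]
    rw [abs_of_nonneg (by positivity), ← div_eq_inv_mul, div_le_one hr]
    exact h

section radial

variable {R a : ℝ} (hR : 1 < R) (ha : 0 < a) (hroot : 2 * Real.log R * BJ a = BI a)

/-- radial profile -/
noncomputable def prof (R a ρ : ℝ) : ℝ := BI (a * ρ ^ 2 / R ^ 2)

/-- the mass function `∫_0^ρ s prof(s) ds` -/
noncomputable def mass (R a ρ : ℝ) : ℝ := R ^ 2 / (2 * a) * BJ (a * ρ ^ 2 / R ^ 2)

lemma hasDerivAt_arg (R a ρ : ℝ) :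
    HasDerivAt (fun ρ : ℝ => a * ρ ^ 2 / R ^ 2) (2 * a * ρ / R ^ 2) ρ := by
  have h := ((hasDerivAt_pow 2 ρ).const_mul a).div_const (R ^ 2)
  refine h.congr_deriv ?_
  push_cast
  ring

include hR ha

lemma hasDerivAt_mass (ρ : ℝ) : HasDerivAt (mass R a) (ρ * prof R a ρ) ρ := by
  have h := ((hasDerivAt_BJ (a * ρ ^ 2 / R ^ 2)).comp ρ (hasDerivAt_arg R a ρ)).const_mul
    (R ^ 2 / (2 * a))
  have hR0 : R ≠ 0 := by linarith
  refine HasDerivAt.congr_deriv (f := mass R a) h ?_
  unfold prof
  field_simp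

lemma hasDerivAt_prof {ρ : ℝ} (hρ : 0 < ρ) :
    HasDerivAt (prof R a) (4 * a / R ^ 2 * (mass R a ρ / ρ)) ρ := by
  have h := (hasDerivAt_BI (a * ρ ^ 2 / R ^ 2)).comp ρ (hasDerivAt_arg R a ρ)
  have hR0 : R ≠ 0 := by linarith
  refine HasDerivAt.congr_deriv (f := prof R a) h ?_
  unfold mass
  rw [BJ_eq]
  field_simp
  ring

lemma continuous_prof : Continuous (prof R a) := by
  have hBI : Continuous BI := continuous_iff_continuousAt.mpr fun s => (hasDerivAt_BI s).continuousAt
  unfold prof
  exact hBI.comp (by fun_prop)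

lemma continuous_mass : Continuous (mass R a) :=
  continuous_iff_continuousAt.mpr fun s => (hasDerivAt_mass hR ha s).continuousAt

include hroot

lemma radial_integral {r : ℝ} (hr : 0 < r) (hrR : r < R) :
    ∫ ρ in Ioo 0 R, ρ * prof R a ρ * Real.log (max ρ r) = R ^ 2 / (4 * a) * prof R a r := by
  have hR0 : 0 < R := by linarith
  have hcp := continuous_prof hR ha
  rw [← integral_Ioc_eq_integral_Ioo, ← intervalIntegral.integral_of_le hR0.le]
  have hcont : ContinuousOn (fun ρ : ℝ => ρ * prof R a ρ * Real.log (max ρ r)) (Icc 0 R) := by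
    refine ContinuousOn.mul (by fun_prop) ?_
    refine ContinuousOn.log (by fun_prop) fun ρ _ => ?_
    exact (lt_of_lt_of_le hr (le_max_right _ _)).ne'
  have hi : ∀ p q : ℝ, 0 ≤ p → q ≤ R → p ≤ q →
      IntervalIntegrable (fun ρ : ℝ => ρ * prof R a ρ * Real.log (max ρ r)) volume p q := by
    intro p q hp hq hpq
    apply ContinuousOn.intervalIntegrable
    rw [uIcc_of_le hpq]
    exact hcont.mono (Icc_subset_Icc hp hq)
  rw [← intervalIntegral.integral_add_adjacent_intervals (hi 0 r le_rfl hrR.le hr.le)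
    (hi r R hr.le le_rfl hrR.le)]
  have h1 : ∫ ρ in (0 : ℝ)..r, ρ * prof R a ρ * Real.log (max ρ r) = Real.log r * mass R a r := by
    have e1 : ∫ ρ in (0 : ℝ)..r, ρ * prof R a ρ * Real.log (max ρ r)
        = ∫ ρ in (0 : ℝ)..r, Real.log r * (ρ * prof R a ρ) := by
      refine intervalIntegral.integral_congr fun ρ hρ => ?_
      rw [uIcc_of_le hr.le] at hρ
      simp only [max_eq_right hρ.2]
      ring
    rw [e1, intervalIntegral.integral_const_mul,
      intervalIntegral.integral_eq_sub_of_hasDerivAt (fun ρ _ => hasDerivAt_mass hR ha ρ)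
        ((by fun_prop : Continuous fun ρ => ρ * prof R a ρ).intervalIntegrable _ _)]
    have : mass R a 0 = 0 := by simp [mass, BJ_zero]
    rw [this, sub_zero]
  have h2 : ∫ ρ in r..R, ρ * prof R a ρ * Real.log (max ρ r) =
      (mass R a R * Real.log R - R ^ 2 / (4 * a) * prof R a R) -
        (mass R a r * Real.log r - R ^ 2 / (4 * a) * prof R a r) := by
    have e1 : ∫ ρ in r..R, ρ * prof R a ρ * Real.log (max ρ r)
        = ∫ ρ in r..R, ρ * prof R a ρ * Real.log ρ := by
      refine intervalIntegral.integral_congr fun ρ hρ => ?_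
      rw [uIcc_of_le hrR.le] at hρ
      simp only [max_eq_left hρ.1]
    rw [e1]
    have hd : ∀ ρ ∈ uIcc r R, HasDerivAt
        (fun ρ => mass R a ρ * Real.log ρ - R ^ 2 / (4 * a) * prof R a ρ)
        (ρ * prof R a ρ * Real.log ρ) ρ := by
      intro ρ hρ
      rw [uIcc_of_le hrR.le] at hρ
      have hρ0 : 0 < ρ := lt_of_lt_of_le hr hρ.1
      have h3 := ((hasDerivAt_mass hR ha ρ).mul (Real.hasDerivAt_log hρ0.ne')).sub
        ((hasDerivAt_prof hR ha hρ0).const_mul (R ^ 2 / (4 * a)))
      refine h3.congr_deriv ?_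
      field_simp
      ring
    have hint : IntervalIntegrable (fun ρ => ρ * prof R a ρ * Real.log ρ) volume r R := by
      apply ContinuousOn.intervalIntegrable
      rw [uIcc_of_le hrR.le]
      refine ContinuousOn.mul (by fun_prop) ?_
      refine ContinuousOn.log continuousOn_id fun ρ hρ => ?_
      exact (lt_of_lt_of_le hr hρ.1).ne'
    rw [intervalIntegral.integral_eq_sub_of_hasDerivAt hd hint]
  rw [h1, h2]
  have h3 : mass R a R * Real.log R = R ^ 2 / (4 * a) * prof R a R := by
    unfold mass prof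
    have : a * R ^ 2 / R ^ 2 = a := by field_simp
    rw [this, ← hroot]
    field_simp
    ring
  rw [h3]
  ring

/-- the radial eigenfunction -/
lemma potential_eq {x : ℂ} (hx0 : x ≠ 0) (hx : x ∈ Metric.ball (0 : ℂ) R) :
    ∫ y in Metric.ball (0 : ℂ) R, Real.log (1 / ‖x - y‖) * prof R a ‖y‖ =
      -(π * R ^ 2 / (2 * a)) * prof R a ‖x‖ := by
  have hcp := continuous_prof hR ha
  have hR0 : 0 < R := by linarith
  set f : ℂ → ℝ := fun y => Real.log ‖x - y‖ * prof R a ‖y‖ with hf
  have hfm : Measurable f := by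
    refine Measurable.mul ?_ (hcp.measurable.comp measurable_norm)
    exact Real.measurable_log.comp (by fun_prop)
  have hfi : IntegrableOn f (Metric.ball 0 R) := by
    have h1 := integrableOn_log_sub hx
    have hcc : Continuous fun y : ℂ => prof R a ‖y‖ := hcp.comp continuous_norm
    obtain ⟨C, hC⟩ := (isCompact_closedBall (0 : ℂ) R).exists_bound_of_continuousOn hcc.continuousOn
    refine Integrable.mul_bdd (c := C) h1 hcc.aestronglyMeasurable ?_
    filter_upwards [ae_restrict_mem Metric.isOpen_ball.measurableSet] with y hy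
    exact hC y (Metric.ball_subset_closedBall hy)
  have h1 : ∫ y in Metric.ball (0 : ℂ) R, Real.log (1 / ‖x - y‖) * prof R a ‖y‖ =
      -∫ y in Metric.ball (0 : ℂ) R, f y := by
    rw [← integral_neg]
    refine integral_congr_ae (Eventually.of_forall fun y => ?_)
    simp only [hf, one_div, Real.log_inv]
    ring
  rw [h1, integral_ball_eq_polar hfm hfi]
  have h2 : ∀ r ∈ Ioo 0 R, ∫ θ in Ioo (-π) π, r * f (Complex.polarCoord.symm (r, θ)) =
      2 * π * (r * prof R a r * Real.log (max r ‖x‖)) := by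
    intro r hr
    have h3 : ∀ θ : ℝ, r * f (Complex.polarCoord.symm (r, θ)) =
        (r * prof R a r) * Real.log ‖x - Complex.polarCoord.symm (r, θ)‖ := by
      intro θ
      simp only [hf]
      rw [Complex.norm_polarCoord_symm, abs_of_pos hr.1]
      ring
    simp_rw [h3]
    rw [integral_const_mul, integral_log_circle hx0 hr.1]
    ring
  rw [setIntegral_congr_fun measurableSet_Ioo h2, integral_const_mul]
  have hxn : 0 < ‖x‖ := norm_pos_iff.mpr hx0
  rw [radial_integral hR ha hroot hxn (by simpa using hx)]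
  field_simp
  ring

end radial

/-- For every `R > 1` the logarithmic potential operator of the disc has a negative eigenvalue. -/
lemma exists_neg_eigenvalue {R : ℝ} (hR : 1 < R) :
    ∃ t : ℝ, t < 0 ∧ IsLogEigenvalue (Metric.ball 0 R) t := by
  obtain ⟨a, ha, hroot⟩ := exists_root (Real.log_pos hR)
  have hcp := continuous_prof hR ha
  have hR0 : 0 < R := by linarith
  refine ⟨-(π * R ^ 2 / (2 * a)), by have := Real.pi_pos; simp only [Left.neg_neg_iff]; positivity,
    fun y => prof R a ‖y‖, ?_, ?_, ?_⟩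
  · have hcc : Continuous fun y : ℂ => prof R a ‖y‖ := hcp.comp continuous_norm
    obtain ⟨C, hC⟩ := (isCompact_closedBall (0 : ℂ) R).exists_bound_of_continuousOn hcc.continuousOn
    have : IsFiniteMeasure (volume.restrict (Metric.ball (0 : ℂ) R)) :=
      ⟨by rw [Measure.restrict_apply_univ]; exact measure_ball_lt_top⟩
    refine MemLp.of_bound hcc.aestronglyMeasurable C ?_
    filter_upwards [ae_restrict_mem Metric.isOpen_ball.measurableSet] with y hy
    exact hC y (Metric.ball_subset_closedBall hy)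
  · intro h
    have h2 : ∀ᵐ x ∂(volume.restrict (Metric.ball (0 : ℂ) R)), False := by
      filter_upwards [h] with x hx
      have h3 : 1 ≤ prof R a ‖x‖ := one_le_BI (by positivity)
      rw [hx] at h3
      simp at h3
      linarith
    rw [eventually_false_iff_eq_bot, ae_eq_bot, Measure.restrict_eq_zero] at h2
    exact (Metric.measure_ball_pos volume (0 : ℂ) hR0).ne' h2
  · have h0 : ∀ᵐ x ∂(volume.restrict (Metric.ball (0 : ℂ) R)), x ≠ 0 :=
      ae_restrict_of_ae (Measure.ae_ne volume 0)
    filter_upwards [ae_restrict_mem Metric.isOpen_ball.measurableSet, h0] with x hx hx0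
    exact potential_eq hR ha hroot hx0 hx

end Pool.Agent.Helper19_LogPot
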